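import Pool.Agent.AGeo.Anchor

/-!
Analysis half of part A: the pumping property contradicts the stable norm.
-/

set_option autoImplicit false

namespace Pool.Agent.AGeo

/-- the pumping property (A4) of a length function on the integer plane -/
def Pump (p : ℤ × ℤ → ℝ) (Nc : ℕ) : Prop :=
  ∀ m : ℕ, 1 ≤ m → ∃ C : ℝ, ∀ (v : ℕ → ℤ × ℤ) (a : ℕ → ℕ) (e : ℕ → Bool),
    (∀ l, 1 ≤ l → l < m → ∀ j : ℤ, v l ≠ j • TZ (!(e l))) →
    ∃ (Y : ℕ → ℤ) (col : ℕ → Fin Nc), Y 0 = 0 ∧ Y (m + 1) = 0 ∧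
      (∀ i j, 1 ≤ i → i ≤ m → 1 ≤ j → j ≤ m → col i = col j → e i = e j ∧ 0 ≤ Y i * Y j) ∧
      ∑ l ∈ Finset.range (m + 1), p (shf v a e Y l)
        ≤ ∑ l ∈ Finset.range (m + 1), p (v l) + C ∧
      ∀ i j, 1 ≤ i → i ≤ m → 1 ≤ j → j ≤ m → col i = col j →
        ∀ X X' : ℕ → ℤ, X 0 = 0 → X' (m + 1) = 0 → X i - X' j = Y i - Y j →
        ∑ l ∈ Finset.range i, p (shf v a e Y l)
          + ∑ l ∈ Finset.Ico j (m + 1), p (shf v a e Y l)
        ≤ ∑ l ∈ Finset.range i, p (shf v a e X l)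
          + ∑ l ∈ Finset.Ico j (m + 1), p (shf v a e X' l) + C

lemma exists_pos_min {ι : Type} (S : Finset ι) (g : ι → ℝ) (h : ∀ i ∈ S, 0 < g i) :
    ∃ d : ℝ, 0 < d ∧ ∀ i ∈ S, d ≤ g i := by
  classical
  induction S using Finset.induction_on with
  | empty => exact ⟨1, one_pos, fun i hi => absurd hi (Finset.notMem_empty i)⟩
  | insert i S _ ih =>
    obtain ⟨d, hd, hd'⟩ := ih fun j hj => h j (Finset.mem_insert_of_mem hj)
    refine ⟨min d (g i), lt_min hd (h i (Finset.mem_insert_self i S)), fun j hj => ?_⟩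
    rcases Finset.mem_insert.mp hj with rfl | hj
    · exact min_le_right _ _
    · exact (min_le_left _ _).trans (hd' j hj)

/-- integer vector near a real vector -/
noncomputable def rd (x : ℝ × ℝ) : ℤ × ℤ := (round x.1, round x.2)

lemma n1_rd (x : ℝ × ℝ) : n1 (cst (rd x) - x) ≤ 1 := by
  unfold n1 cst rd
  simp only [Prod.fst_sub, Prod.snd_sub]
  have h1 : |(round x.1 : ℝ) - x.1| ≤ 1 / 2 := by rw [abs_sub_comm]; exact abs_sub_round _
  have h2 : |(round x.2 : ℝ) - x.2| ≤ 1 / 2 := by rw [abs_sub_comm]; exact abs_sub_round _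
  linarith

theorem ana {p : ℤ × ℤ → ℝ} (hp : LenZ p) {C₀ c₀ : ℝ} (hρ : ∀ v, p (rotZ v) ≤ p v + C₀)
    (huw : ∀ n : ℕ, |p (n • (3, 0)) - p (n • (2, 2))| ≤ C₀) (hc₀ : 0 < c₀)
    (hlow : ∀ n : ℕ, c₀ * n ≤ p (n • (2, 2))) {Nc : ℕ} (hP : Pump p Nc) : False := by
  classical
  have hN := stab_nrm hp hρ huw hc₀ hlow
  set τ : ℝ := stab p (2, 2) with hτd
  have hτ := hN.pos
  obtain ⟨m, a, e, c, lam, ζ, H, hC⟩ := exists_conf hN Nc
  have hnm := hC.hnm
  have hH := hC.hH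
  obtain ⟨Cm, hpump⟩ := hP m (by omega)
  -- minimal difference of the momenta
  obtain ⟨d₀, hd₀, hd₀'⟩ := exists_pos_min
    ((((Finset.range (m + 1)) ×ˢ (Finset.range (m + 1))).filter
      fun q => c q.1 ≠ c q.2)) (fun q => |c q.1 - c q.2|) (by
      intro q hq
      rw [Finset.mem_filter] at hq
      exact abs_pos.mpr (sub_ne_zero.mpr hq.2))
  have hd : ∀ i j, i ≤ m → j ≤ m → c i ≠ c j → d₀ ≤ |c i - c j| := by
    intro i j hi hj hne
    refine hd₀' (i, j) ?_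
    rw [Finset.mem_filter, Finset.mem_product]
    exact ⟨⟨Finset.mem_range.mpr (Nat.lt_succ_of_le hi),
      Finset.mem_range.mpr (Nat.lt_succ_of_le hj)⟩, hne⟩
  obtain ⟨η, hη, hη'⟩ := exists_pos_min ((Finset.range (m + 1)).filter fun l => 1 ≤ l)
    (fun l => H * |ζ l|) (by
      intro l hl
      rw [Finset.mem_filter, Finset.mem_range] at hl
      exact mul_pos hH (abs_pos.mpr (hC.ζne l hl.2 (by omega))))
  have hηζ : ∀ l, 1 ≤ l → l ≤ m → η ≤ H * |ζ l| := by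
    intro l h1 h2
    refine hη' l ?_
    rw [Finset.mem_filter, Finset.mem_range]
    exact ⟨by omega, h1⟩
  have hmpos : (0 : ℝ) < 16 * ((m : ℝ) + 1) := by positivity
  set δ : ℝ := d₀ * η / (16 * ((m : ℝ) + 1)) with hδd
  have hδ : 0 < δ := by positivity
  obtain ⟨V, hV1, hV2⟩ := hC.prec δ hδ
  -- constants
  set K₁ : ℝ := ∑ l ∈ Finset.range (m + 1), Lc p * (n1 (V l) + 1) with hK₁
  have hL := Lc_nonneg hp
  have hK₁0 : 0 ≤ K₁ := Finset.sum_nonneg fun l _ =>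
    mul_nonneg hL (add_nonneg (n1_nonneg _) zero_le_one)
  set K₂ : ℝ := 8 / τ * (K₁ + |Cm|) with hK₂
  have hK₂0 : 0 ≤ K₂ := by positivity
  set K₃ : ℝ := ∑ l ∈ Finset.range (m + 1), (n1 (V l)
      + H * n1 (ζ (l + 1) • (rot^[a l] (TR (e (l + 1)))) - ζ l • TR (!(e l)))) with hK₃
  have hK₃t : ∀ l : ℕ, 0 ≤ n1 (V l)
      + H * n1 (ζ (l + 1) • (rot^[a l] (TR (e (l + 1)))) - ζ l • TR (!(e l))) := fun l =>
    add_nonneg (n1_nonneg _) (mul_nonneg hH.le (n1_nonneg _))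
  have hK₃0 : 0 ≤ K₃ := Finset.sum_nonneg fun l _ => hK₃t l
  have hK₃l : ∀ l ≤ m, n1 (V l)
      + H * n1 (ζ (l + 1) • (rot^[a l] (TR (e (l + 1)))) - ζ l • TR (!(e l))) ≤ K₃ := by
    intro l hl
    exact Finset.single_le_sum (f := fun l => n1 (V l)
      + H * n1 (ζ (l + 1) • (rot^[a l] (TR (e (l + 1)))) - ζ l • TR (!(e l))))
      (fun l _ => hK₃t l) (Finset.mem_range.mpr (Nat.lt_succ_of_le hl))
  set K₄ : ℝ := K₂ + K₃ + 5 with hK₄
  have hK₄0 : 0 < K₄ := by positivity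
  set ε : ℝ := d₀ * η / (16 * ((m : ℝ) + 1) * K₄) with hεd
  have hε : 0 < ε := by positivity
  obtain ⟨Cε', hunif'⟩ := stab_unif hp hε
  set Cε : ℝ := max Cε' 0 with hCε
  have hCε0 : 0 ≤ Cε := le_max_right _ _
  have hunif : ∀ w : ℤ × ℤ, p w ≤ stab p (cst w) + ε * n1 (cst w) + Cε := fun w =>
    (hunif' w).trans (by linarith [le_max_left Cε' 0])
  obtain ⟨κ, hκ, hκ'⟩ := exists_pos_min ((Finset.range m).filter fun l => 1 ≤ l)
    (fun l => |crs (TR (!(e l))) (V l)|) (by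
      intro l hl
      rw [Finset.mem_filter, Finset.mem_range] at hl
      exact abs_pos.mpr (hV1 l hl.2 hl.1))
  -- the large parameter
  set Q : ℝ := d₀ + 2 * ((m : ℝ) + 1) * (2 * τ + Cε) + |Cm| with hQ
  have hQ0 : 0 < Q := by positivity
  obtain ⟨M, hM⟩ : ∃ M : ℝ, M = 1 + 1 / η + 5 / κ + 2 * Q / (d₀ * η) := ⟨_, rfl⟩
  have hM1 : 1 ≤ M := by
    rw [hM]
    have : 0 ≤ 1 / η + 5 / κ + 2 * Q / (d₀ * η) := by positivity
    linarith
  have hMη : 1 ≤ η * M := by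
    have h1 : 1 / η ≤ M := by
      rw [hM]
      have : 0 ≤ 1 + 5 / κ + 2 * Q / (d₀ * η) := by positivity
      linarith
    rw [div_le_iff₀ hη] at h1
    linarith
  have hMκ : 4 < M * κ := by
    have h1 : 5 / κ ≤ M := by
      rw [hM]
      have : 0 ≤ 1 + 1 / η + 2 * Q / (d₀ * η) := by positivity
      linarith
    rw [div_le_iff₀ hκ] at h1
    linarith
  have hMQ : 2 * Q ≤ M * (d₀ * η) := by
    have h1 : 2 * Q / (d₀ * η) ≤ M := by
      rw [hM]
      have : 0 ≤ 1 + 1 / η + 5 / κ := by positivity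
      linarith
    rwa [div_le_iff₀ (by positivity)] at h1
  set v : ℕ → ℤ × ℤ := fun l => rd (M • V l) with hv
  have hvn : ∀ l, n1 (cst (v l) - M • V l) ≤ 1 := fun l => n1_rd _
  have hred : ∀ l, 1 ≤ l → l < m → ∀ j : ℤ, v l ≠ j • TZ (!(e l)) := by
    intro l h1 h2 j hj
    have h3 : cst (v l) = (j : ℝ) • TR (!(e l)) := by rw [hj, cst_zsmul, cst_TZ]
    have h4 : crs (TR (!(e l))) (cst (v l)) = 0 := by
      rw [h3]; unfold crs; simp only [Prod.smul_fst, Prod.smul_snd, smul_eq_mul]; ring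
    have h5 : crs (TR (!(e l))) (cst (v l)) = M * crs (TR (!(e l))) (V l)
        + crs (TR (!(e l))) (cst (v l) - M • V l) := by
      unfold crs
      simp only [Prod.fst_sub, Prod.snd_sub, Prod.smul_fst, Prod.smul_snd, smul_eq_mul]
      ring
    have h6 : |crs (TR (!(e l))) (cst (v l) - M • V l)| ≤ 4 := by
      have h7 := hvn l
      have h8 := n1_TR (!(e l))
      set b := TR (!(e l))
      set x := cst (v l) - M • V l
      have h9 : |crs b x| ≤ n1 b * n1 x := by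
        unfold crs n1
        have e1 : |b.1 * x.2 - b.2 * x.1| ≤ |b.1| * |x.2| + |b.2| * |x.1| := by
          have := abs_add_le (b.1 * x.2) (-(b.2 * x.1))
          rw [abs_neg, abs_mul, abs_mul, ← sub_eq_add_neg] at this
          exact this
        nlinarith [mul_nonneg (abs_nonneg b.1) (abs_nonneg x.1),
          mul_nonneg (abs_nonneg b.2) (abs_nonneg x.2)]
      have h10 := n1_nonneg b
      have h11 := n1_nonneg x
      nlinarith
    have h7 : κ ≤ |crs (TR (!(e l))) (V l)| := by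
      refine hκ' l ?_
      rw [Finset.mem_filter, Finset.mem_range]
      exact ⟨h2, h1⟩
    have h8 : M * κ ≤ 4 := by
      have h9 : M * crs (TR (!(e l))) (V l)
          = -crs (TR (!(e l))) (cst (v l) - M • V l) := by linarith
      have h10 : |M * crs (TR (!(e l))) (V l)| ≤ 4 := by rw [h9, abs_neg]; exact h6
      rw [abs_mul, abs_of_nonneg (by linarith : (0 : ℝ) ≤ M)] at h10
      have h11 := mul_le_mul_of_nonneg_left h7 (by linarith : (0 : ℝ) ≤ M)
      linarith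
    linarith
  obtain ⟨Y, col, hY0, hYm, hcol, hQ0', hQ1⟩ := hpump v a e hred
  -- size of the displacements
  have hS : ∑ l ∈ Finset.range (m + 1), p (v l) ≤ K₁ * M := by
    rw [hK₁, Finset.sum_mul]
    refine Finset.sum_le_sum fun l _ => ?_
    have h1 := hp.le_n1 (v l)
    have h2 : n1 (cst (v l)) ≤ (n1 (V l) + 1) * M := by
      have h3 := n1_add (M • V l) (cst (v l) - M • V l)
      rw [add_sub_cancel, n1_smul, abs_of_nonneg (by linarith : (0 : ℝ) ≤ M)] at h3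
      have h4 := hvn l
      nlinarith
    have h3 := mul_le_mul_of_nonneg_left h2 hL
    unfold Lc at h3 ⊢
    linarith
  have hK₂l : ∀ l ≤ m, n1 (cst (shf v a e Y l)) ≤ K₂ * M := by
    intro l hl
    have h1 := hN.n1_le (cst (shf v a e Y l))
    have h2 := stab_le_p hp (shf v a e Y l)
    have h3 : p (shf v a e Y l) ≤ ∑ l ∈ Finset.range (m + 1), p (shf v a e Y l) :=
      Finset.single_le_sum (f := fun l => p (shf v a e Y l)) (fun l _ => hp.nonneg _)
        (Finset.mem_range.mpr (Nat.lt_succ_of_le hl))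
    have h4 : τ / 8 * n1 (cst (shf v a e Y l)) ≤ (K₁ + |Cm|) * M := by
      have h5 : |Cm| ≤ |Cm| * M := le_mul_of_one_le_right (abs_nonneg _) hM1
      have h6 := le_abs_self Cm
      nlinarith
    rw [hK₂]
    have h5 : n1 (cst (shf v a e Y l)) = 8 / τ * (τ / 8 * n1 (cst (shf v a e Y l))) := by
      field_simp
    rw [h5, mul_assoc]
    exact mul_le_mul_of_nonneg_left h4 (by positivity)
  -- two crossings of the same colour
  obtain ⟨i₀, hi₀, j₀, hj₀, hne, hcolij⟩ : ∃ i₀ ∈ Finset.Icc 1 (Nc + 1),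
      ∃ j₀ ∈ Finset.Icc 1 (Nc + 1), i₀ ≠ j₀ ∧ col i₀ = col j₀ := by
    refine Finset.exists_ne_map_eq_of_card_lt_of_maps_to (t := (Finset.univ : Finset (Fin Nc)))
      ?_ (fun i _ => Finset.mem_univ _)
    rw [Finset.card_univ, Fintype.card_fin, Nat.card_Icc]
    omega
  rw [Finset.mem_Icc] at hi₀ hj₀
  have key : ∀ i j : ℕ, 1 ≤ i → i ≤ m → 1 ≤ j → j ≤ m → col i = col j →
      ∀ z : ℤ, z ≠ 0 → z * Y i ≤ 0 → z * Y j ≤ 0 → |(z : ℝ)| ≤ η * M → η * M - 1 ≤ |(z : ℝ)| →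
      (c i - c j) * z ≤ -(d₀ * |(z : ℝ)|) → False := by
    intro i j hi1 him hj1 hjm hcij z hz hzi hzj hzM hzM' hneg
    have hM0 : (0 : ℝ) ≤ M := by linarith
    obtain ⟨X, g, hX0, hXm, hXi, hg0, hgm, hgi, hg⟩ := anchor hp hN hC hδ.le hV2 hM1
      (fun l _ => hvn l) hY0 hYm hε.le hK₂l hK₃l hunif hi1 him hz hzi
      (hzM.trans (mul_le_mul_of_nonneg_right (hηζ i hi1 him) hM0))
    obtain ⟨X', g', hX0', hXm', hXj', hg0', hgm', hgj', hg'⟩ := anchor hp hN hC hδ.le hV2 hM1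
      (fun l _ => hvn l) hY0 hYm hε.le hK₂l hK₃l hunif hj1 hjm hz hzj
      (hzM.trans (mul_le_mul_of_nonneg_right (hηζ j hj1 hjm) hM0))
    have h1 := hQ1 i j hi1 him hj1 hjm hcij X X' hX0 hXm' (by rw [hXi, hXj']; ring)
    set F : ℝ := δ * M + 2 * τ + ε * ((K₂ + K₃ + 5) * M) + Cε with hF
    have hF0 : 0 ≤ F := by positivity
    have h2 : ∑ l ∈ Finset.range i, p (shf v a e X l)
        ≤ ∑ l ∈ Finset.range i, p (shf v a e Y l) + c i * z + i * F := by
      have h3 : ∑ l ∈ Finset.range i, p (shf v a e X l) ≤ ∑ l ∈ Finset.range i,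
          (p (shf v a e Y l) + (g (l + 1) * c (l + 1) - g l * c l) + F) :=
        Finset.sum_le_sum fun l hl => hg l (by rw [Finset.mem_range] at hl; omega)
      rw [Finset.sum_add_distrib, Finset.sum_add_distrib,
        Finset.sum_range_sub (fun l => g l * c l) i, Finset.sum_const, Finset.card_range,
        nsmul_eq_mul, hg0, hgi] at h3
      linarith
    have h4 : ∑ l ∈ Finset.Ico j (m + 1), p (shf v a e X' l)
        ≤ ∑ l ∈ Finset.Ico j (m + 1), p (shf v a e Y l) - c j * z + ((m + 1 - j : ℕ) : ℝ) * F := by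
      have h3 : ∑ l ∈ Finset.Ico j (m + 1), p (shf v a e X' l) ≤ ∑ l ∈ Finset.Ico j (m + 1),
          (p (shf v a e Y l) + (g' (l + 1) * c (l + 1) - g' l * c l) + F) :=
        Finset.sum_le_sum fun l hl => hg' l (by rw [Finset.mem_Ico] at hl; omega)
      rw [Finset.sum_add_distrib, Finset.sum_add_distrib,
        Finset.sum_Ico_sub (fun l => g' l * c l) (by omega : j ≤ m + 1), Finset.sum_const,
        Nat.card_Ico, nsmul_eq_mul, hgm', hgj'] at h3
      linarith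
    have h5 : (i : ℝ) * F ≤ ((m : ℝ) + 1) * F := by
      refine mul_le_mul_of_nonneg_right ?_ hF0
      have : (i : ℝ) ≤ m := by exact_mod_cast him
      linarith
    have h6 : ((m + 1 - j : ℕ) : ℝ) * F ≤ ((m : ℝ) + 1) * F := by
      refine mul_le_mul_of_nonneg_right ?_ hF0
      have : m + 1 - j ≤ m + 1 := Nat.sub_le _ _
      exact_mod_cast this
    have h7 : 0 ≤ (c i - c j) * z + 2 * (((m : ℝ) + 1) * F) + Cm := by linarith
    have h8 : ((m : ℝ) + 1) * (δ * M) = d₀ * η * M / 16 := by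
      rw [hδd]; field_simp
    have h9 : ((m : ℝ) + 1) * (ε * (K₄ * M)) = d₀ * η * M / 16 := by
      rw [hεd]; field_simp
    have h10 : ((m : ℝ) + 1) * F = d₀ * η * M / 8 + ((m : ℝ) + 1) * (2 * τ + Cε) := by
      rw [hF, ← hK₄]
      linarith
    have h11 : d₀ * (η * M - 1) ≤ d₀ * |(z : ℝ)| := mul_le_mul_of_nonneg_left hzM' hd₀.le
    have h12 := le_abs_self Cm
    have h13 : d₀ * η * M ≤ d₀ * η * M / 4 + Q := by
      rw [hQ]
      rw [h10] at h7
      linarith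
    have h14 : 0 < d₀ * η * M := by positivity
    linarith
  -- choose the sign
  have hij : col i₀ = col j₀ := hcolij
  have hcne : c i₀ ≠ c j₀ := by
    have he := (hcol i₀ j₀ hi₀.1 (by omega) hj₀.1 (by omega) hij).1
    rcases Nat.lt_or_gt_of_ne hne with h | h
    · exact hC.diff i₀ j₀ hi₀.1 h hj₀.2 he
    · exact (hC.diff j₀ i₀ hj₀.1 h hi₀.2 he.symm).symm
  have hYY := (hcol i₀ j₀ hi₀.1 (by omega) hj₀.1 (by omega) hij).2
  have hfl : (1 : ℤ) ≤ ⌊η * M⌋ := by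
    rw [Int.le_floor]; exact_mod_cast hMη
  have hfl1 : (⌊η * M⌋ : ℝ) ≤ η * M := Int.floor_le _
  have hfl2 : η * M - 1 < (⌊η * M⌋ : ℝ) := by
    have := Int.lt_floor_add_one (η * M)
    linarith
  have hfl0 : (0 : ℝ) < (⌊η * M⌋ : ℝ) := by
    have : (0 : ℤ) < ⌊η * M⌋ := by omega
    exact_mod_cast this
  have hdij := hd i₀ j₀ (by omega) (by omega) hcne
  -- both positions have the same sign
  have hsgn : (0 ≤ Y i₀ ∧ 0 ≤ Y j₀) ∨ (Y i₀ ≤ 0 ∧ Y j₀ ≤ 0) := by
    rcases le_or_gt 0 (Y i₀) with h1 | h1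
    · rcases le_or_gt 0 (Y j₀) with h2 | h2
      · exact Or.inl ⟨h1, h2⟩
      · right
        refine ⟨?_, h2.le⟩
        by_contra h3
        push Not at h3
        nlinarith [mul_pos h3 (neg_pos.mpr h2)]
    · right
      refine ⟨h1.le, ?_⟩
      by_contra h3
      push Not at h3
      nlinarith [mul_pos h3 (neg_pos.mpr h1)]
  have hmain : ∀ i j : ℕ, 1 ≤ i → i ≤ m → 1 ≤ j → j ≤ m → col i = col j →
      ((0 ≤ Y i ∧ 0 ≤ Y j) ∨ (Y i ≤ 0 ∧ Y j ≤ 0)) → d₀ ≤ |c i - c j| → False := by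
    intro i j hi1 him hj1 hjm hcij hs hdd
    rcases hs with ⟨h1, h2⟩ | ⟨h1, h2⟩
    · -- the shift is negative
      have hz : ((-⌊η * M⌋ : ℤ) : ℝ) = -(⌊η * M⌋ : ℝ) := by push_cast; ring
      have hza : |((-⌊η * M⌋ : ℤ) : ℝ)| = (⌊η * M⌋ : ℝ) := by
        rw [hz, abs_neg, abs_of_pos hfl0]
      rcases abs_cases (c i - c j) with ⟨h3, h4⟩ | ⟨h3, h4⟩
      · refine key i j hi1 him hj1 hjm hcij (-⌊η * M⌋) (by omega) ?_ ?_ ?_ ?_ ?_
        · nlinarith
        · nlinarith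
        · rw [hza]; exact hfl1
        · rw [hza]; exact hfl2.le
        · rw [hza, hz]; nlinarith
      · refine key j i hj1 hjm hi1 him hcij.symm (-⌊η * M⌋) (by omega) ?_ ?_ ?_ ?_ ?_
        · nlinarith
        · nlinarith
        · rw [hza]; exact hfl1
        · rw [hza]; exact hfl2.le
        · rw [hza, hz]; nlinarith
    · have hza : |((⌊η * M⌋ : ℤ) : ℝ)| = (⌊η * M⌋ : ℝ) := abs_of_pos hfl0
      rcases abs_cases (c i - c j) with ⟨h3, h4⟩ | ⟨h3, h4⟩
      · refine key j i hj1 hjm hi1 him hcij.symm (⌊η * M⌋) (by omega) ?_ ?_ ?_ ?_ ?_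
        · nlinarith
        · nlinarith
        · rw [hza]; exact hfl1
        · rw [hza]; exact hfl2.le
        · rw [hza]; nlinarith
      · refine key i j hi1 him hj1 hjm hcij (⌊η * M⌋) (by omega) ?_ ?_ ?_ ?_ ?_
        · nlinarith
        · nlinarith
        · rw [hza]; exact hfl1
        · rw [hza]; exact hfl2.le
        · rw [hza]; nlinarith
  exact hmain i₀ j₀ hi₀.1 (by omega) hj₀.1 (by omega) hij hsgn hdij

end Pool.Agent.AGeo
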