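import Pool.Agent.AGeo.Config

/-!
The plane lemma and the shifted crossing positions (A9, first part).
-/

set_option autoImplicit false

namespace Pool.Agent.AGeo

/-- the two directions, integer plane -/
def TZ (e : Bool) : ℤ × ℤ := if e then (3, 0) else (2, 2)

lemma cst_TZ (e : Bool) : cst (TZ e) = TR e := by
  unfold cst TZ TR
  cases e <;> simp

lemma cst_iter (a : ℕ) (v : ℤ × ℤ) : cst (rotZ^[a] v) = rot^[a] (cst v) := by
  induction a with
  | zero => rfl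
  | succ a ih => rw [Function.iterate_succ_apply', Function.iterate_succ_apply', cst_rotZ, ih]

/-- displacement in a plane after moving the crossing positions -/
def shf (v : ℕ → ℤ × ℤ) (a : ℕ → ℕ) (e : ℕ → Bool) (Y : ℕ → ℤ) (l : ℕ) : ℤ × ℤ :=
  v l + Y (l + 1) • (rotZ^[a l] (TZ (e (l + 1)))) - Y l • TZ (!(e l))

lemma cst_shf (v : ℕ → ℤ × ℤ) (a : ℕ → ℕ) (e : ℕ → Bool) (Y : ℕ → ℤ) (l : ℕ) :
    cst (shf v a e Y l) = cst (v l) + (Y (l + 1) : ℝ) • (rot^[a l] (TR (e (l + 1))))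
      - (Y l : ℝ) • TR (!(e l)) := by
  unfold shf
  rw [cst_sub, cst_add, cst_zsmul, cst_zsmul, cst_iter, cst_TZ, cst_TZ]

lemma n1_TR (e : Bool) : n1 (TR e) ≤ 4 := by
  unfold n1 TR
  cases e
  · simp only [Bool.false_eq_true, if_false]; norm_num
  · simp only [if_true]; norm_num

lemma n1_iter (a : ℕ) (x : ℝ × ℝ) : n1 (rot^[a] x) = n1 x := by
  induction a with
  | zero => rfl
  | succ a ih => rw [Function.iterate_succ_apply', n1_rot, ih]

/-- plane lemma -/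
lemma plane {N : ℝ × ℝ → ℝ} {τ : ℝ} (hN : Nrm N τ) {l : ℝ × ℝ} (hl : ∀ x, ip l x ≤ N x)
    {v V D v' : ℝ × ℝ} {M δ θ h : ℝ} (hθ0 : 0 ≤ θ) (hθ1 : θ ≤ 1) (hM : 0 ≤ M) (hδ : 0 ≤ δ)
    (hW : N (V + h • D) ≤ ip l (V + h • D) + δ) (hv : n1 (v - M • V) ≤ 1) :
    N ((1 - θ) • v' + θ • (v + (M * h) • D)) ≤
      N v' + (ip l ((1 - θ) • v' + θ • (v + (M * h) • D)) - ip l v') + δ * M + 2 / 3 * τ := by
  have hτ := hN.pos
  have h1 : N (v + (M * h) • D) ≤ ip l (v + (M * h) • D) + (δ * M + 2 / 3 * τ) := by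
    have e : v + (M * h) • D = M • (V + h • D) + (v - M • V) := by module
    have h2 := hN.add (M • (V + h • D)) (v - M • V)
    rw [← e, hN.smul, abs_of_nonneg hM] at h2
    have h3 := hN.le_n1 (v - M • V)
    have h4 : N (v - M • V) ≤ τ / 3 := by nlinarith
    have h5 := mul_le_mul_of_nonneg_left hW hM
    have h6 : ip l (v + (M * h) • D) = M * ip l (V + h • D) + ip l (v - M • V) := by
      rw [e, ip_add, ip_smul]
    have h7 : -(τ / 3) ≤ ip l (v - M • V) := by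
      have h8 := hl (-(v - M • V))
      rw [ip_neg, hN.neg] at h8
      linarith
    rw [h6]
    linarith
  have h2 := hN.add ((1 - θ) • v') (θ • (v + (M * h) • D))
  rw [hN.smul, hN.smul, abs_of_nonneg hθ0, abs_of_nonneg (by linarith)] at h2
  have h3 := mul_le_mul_of_nonneg_left h1 hθ0
  have h4 := hl v'
  rw [ip_add, ip_smul, ip_smul]
  have h5 : (1 - θ) * (N v' - ip l v') ≤ 1 * (N v' - ip l v') :=
    mul_le_mul_of_nonneg_right (by linarith) (by linarith)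
  have h6 : θ * (δ * M + 2 / 3 * τ) ≤ 1 * (δ * M + 2 / 3 * τ) :=
    mul_le_mul_of_nonneg_right hθ1 (by positivity)
  nlinarith

theorem anchor {p : ℤ × ℤ → ℝ} (hp : LenZ p) {τ : ℝ} (hN : Nrm (stab p) τ)
    {m n : ℕ} {a : ℕ → ℕ} {e : ℕ → Bool} {c : ℕ → ℝ} {lam : ℕ → ℝ × ℝ} {ζ : ℕ → ℝ} {H : ℝ}
    (hC : Conf (stab p) m n a e c lam ζ H) {V : ℕ → ℝ × ℝ} {δ : ℝ} (hδ : 0 ≤ δ)
    (hV : ∀ l ≤ m, ∀ h : ℝ, |h| ≤ H →
      stab p (V l + h • (ζ (l + 1) • (rot^[a l] (TR (e (l + 1)))) - ζ l • TR (!(e l))))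
      ≤ ip (lam l) (V l + h • (ζ (l + 1) • (rot^[a l] (TR (e (l + 1)))) - ζ l • TR (!(e l))))
        + δ)
    {M : ℝ} (hM : 1 ≤ M) {v : ℕ → ℤ × ℤ} (hv : ∀ l ≤ m, n1 (cst (v l) - M • V l) ≤ 1)
    {Y : ℕ → ℤ} (hY0 : Y 0 = 0) (hYm : Y (m + 1) = 0) {K₂ K₃ ε Cε : ℝ} (hε : 0 ≤ ε)
    (hK₂ : ∀ l ≤ m, n1 (cst (shf v a e Y l)) ≤ K₂ * M)
    (hK₃ : ∀ l ≤ m, n1 (V l)
      + H * n1 (ζ (l + 1) • (rot^[a l] (TR (e (l + 1)))) - ζ l • TR (!(e l))) ≤ K₃)
    (hunif : ∀ w : ℤ × ℤ, p w ≤ stab p (cst w) + ε * n1 (cst w) + Cε)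
    {i : ℕ} (hi1 : 1 ≤ i) (him : i ≤ m) {z : ℤ} (hz : z ≠ 0) (hzY : z * Y i ≤ 0)
    (hzM : |(z : ℝ)| ≤ H * |ζ i| * M) :
    ∃ (X : ℕ → ℤ) (g : ℕ → ℝ), X 0 = 0 ∧ X (m + 1) = 0 ∧ X i = Y i + z ∧ g 0 = 0 ∧
      g (m + 1) = 0 ∧ g i = z ∧ ∀ l ≤ m, p (shf v a e X l) ≤ p (shf v a e Y l)
        + (g (l + 1) * c (l + 1) - g l * c l)
        + (δ * M + 2 * τ + ε * ((K₂ + K₃ + 5) * M) + Cε) := by
  have hτ := hN.pos
  have hζi := hC.ζne i hi1 him
  have hz' : (z : ℝ) ≠ 0 := by exact_mod_cast hz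
  have hzY' : (z : ℝ) * (Y i : ℝ) ≤ 0 := by exact_mod_cast hzY
  have hzz : 0 < (z : ℝ) * z := mul_self_pos.mpr hz'
  have hden : (z : ℝ) - Y i ≠ 0 := by
    intro h
    have : (z : ℝ) * (z - Y i) = 0 := by rw [h, mul_zero]
    nlinarith
  set θ : ℝ := (z : ℝ) / (z - Y i) with hθ
  have hθe : θ = (z : ℝ) * z / (z * z - z * Y i) := by
    rw [hθ, ← mul_sub, mul_div_mul_left _ _ hz']
  have hden' : 0 < (z : ℝ) * z - z * Y i := by linarith
  have hθ0 : 0 ≤ θ := by rw [hθe]; positivity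
  have hθ1 : θ ≤ 1 := by
    rw [hθe, div_le_one hden']; linarith
  set g : ℕ → ℝ := fun l => θ * ((z : ℝ) * ζ l / ζ i - Y l) with hg
  have hg0 : g 0 = 0 := by
    simp only [hg, hC.ζ0, hY0]; simp
  have hgm : g (m + 1) = 0 := by
    simp only [hg, hC.ζm, hYm]; simp
  have hgi : g i = z := by
    simp only [hg]
    rw [mul_div_assoc, div_self hζi, mul_one, hθ, div_mul_cancel₀ _ hden]
  set X : ℕ → ℤ := fun l => Y l + round (g l) with hX
  refine ⟨X, g, ?_, ?_, ?_, hg0, hgm, hgi, ?_⟩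
  · simp [hX, hg0, hY0]
  · simp [hX, hgm, hYm]
  · simp [hX, hgi]
  intro l hl
  set A : ℝ × ℝ := rot^[a l] (TR (e (l + 1))) with hA
  set B : ℝ × ℝ := TR (!(e l)) with hB
  set v' : ℝ × ℝ := cst (shf v a e Y l) with hv'
  have ev' : v' = cst (v l) + (Y (l + 1) : ℝ) • A - (Y l : ℝ) • B := cst_shf v a e Y l
  have hM0 : 0 ≤ M := by linarith
  have hMne : M ≠ 0 := by linarith
  set h : ℝ := (z : ℝ) / (M * ζ i) with hh
  have hhH : |h| ≤ H := by
    rw [hh, abs_div, abs_mul, abs_of_nonneg hM0, div_le_iff₀ (by positivity)]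
    linarith
  set D : ℝ × ℝ := ζ (l + 1) • A - ζ l • B with hD
  set y : ℝ × ℝ := (1 - θ) • v' + θ • (cst (v l) + (M * h) • D) with hy
  have hMh : M * h = (z : ℝ) / ζ i := by
    rw [hh]; field_simp
  have ey : y = v' + g (l + 1) • A - g l • B := by
    rw [hy, hMh, hD, ev']
    simp only [hg]
    have : ∀ (t : ℝ) (k : ℕ), θ * ((z : ℝ) * ζ k / ζ i - Y k) = θ * ((z : ℝ) / ζ i * ζ k)
        - θ * Y k := by
      intro t k; ring
    rw [this 0 (l + 1), this 0 l]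
    module
  have h1 := plane hN (hC.le l hl) (v := cst (v l)) (V := V l) (D := D) (v' := v')
    hθ0 hθ1 hM0 hδ (hV l hl h hhH) (hv l hl)
  rw [← hy] at h1
  have h2 : ip (lam l) y - ip (lam l) v' = g (l + 1) * c (l + 1) - g l * c l := by
    rw [ey, ip_sub, ip_add, ip_smul, ip_smul]
    have h3 : g (l + 1) * ip (lam l) A = g (l + 1) * c (l + 1) := by
      rcases Nat.lt_or_ge l m with h4 | h4
      · rw [hC.ext l h4]
      · have : l = m := le_antisymm hl h4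
        rw [this, hgm]; ring
    have h5 : g l * ip (lam l) B = g l * c l := by
      rcases Nat.eq_zero_or_pos l with h4 | h4
      · rw [h4, hg0]; ring
      · rw [hC.ent l h4 hl]
    rw [h3, h5]
    ring
  rw [h2] at h1
  -- rounding
  set w : ℝ × ℝ := cst (shf v a e X l) with hw
  have ew : w = y + ((round (g (l + 1)) : ℝ) - g (l + 1)) • A
      - ((round (g l) : ℝ) - g l) • B := by
    rw [hw, cst_shf, ey, ev', ← hA, ← hB]
    simp only [hX]
    push_cast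
    module
  have r1 : |(round (g (l + 1)) : ℝ) - g (l + 1)| ≤ 1 / 2 := by
    rw [abs_sub_comm]; exact abs_sub_round _
  have r2 : |(round (g l) : ℝ) - g l| ≤ 1 / 2 := by
    rw [abs_sub_comm]; exact abs_sub_round _
  have hNA : stab p A = τ := by rw [hA, N_iter hN, N_TR hN]
  have hNB : stab p B = τ := N_TR hN _
  have h3 : stab p w ≤ stab p y + τ := by
    rw [ew]
    have h4 := hN.sub_le (y + ((round (g (l + 1)) : ℝ) - g (l + 1)) • A)
      (((round (g l) : ℝ) - g l) • B)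
    have h5 := hN.add y (((round (g (l + 1)) : ℝ) - g (l + 1)) • A)
    rw [hN.smul, hNB] at h4
    rw [hN.smul, hNA] at h5
    nlinarith
  have h6 : n1 w ≤ (K₂ + K₃ + 5) * M := by
    have hnA : n1 A ≤ 4 := by rw [hA, n1_iter]; exact n1_TR _
    have hnB : n1 B ≤ 4 := n1_TR _
    have h7 : n1 w ≤ n1 y + 4 := by
      rw [ew, sub_eq_add_neg, ← neg_smul]
      have h8 := n1_add (y + ((round (g (l + 1)) : ℝ) - g (l + 1)) • A)
        ((-((round (g l) : ℝ) - g l)) • B)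
      have h9 := n1_add y (((round (g (l + 1)) : ℝ) - g (l + 1)) • A)
      rw [n1_smul, abs_neg] at h8
      rw [n1_smul] at h9
      nlinarith [n1_nonneg A, n1_nonneg B, abs_nonneg ((round (g l) : ℝ) - g l),
        abs_nonneg ((round (g (l + 1)) : ℝ) - g (l + 1))]
    have h8 : n1 (cst (v l) + (M * h) • D) ≤ 1 + K₃ * M := by
      have e1 : cst (v l) + (M * h) • D = (cst (v l) - M • V l) + (M • V l + (M * h) • D) := by
        module
      rw [e1]
      have h9 := n1_add (cst (v l) - M • V l) (M • V l + (M * h) • D)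
      have h10 := n1_add (M • V l) ((M * h) • D)
      rw [n1_smul, n1_smul, abs_mul, abs_of_nonneg hM0] at h10
      have h11 := hv l hl
      have h12 := mul_le_mul_of_nonneg_right (hK₃ l hl) hM0
      have h13 : M * |h| * n1 D ≤ M * H * n1 D :=
        mul_le_mul_of_nonneg_right (mul_le_mul_of_nonneg_left hhH hM0) (n1_nonneg _)
      nlinarith
    have h9 : n1 y ≤ K₂ * M + (1 + K₃ * M) := by
      have h10 := n1_add ((1 - θ) • v') (θ • (cst (v l) + (M * h) • D))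
      rw [n1_smul, n1_smul, abs_of_nonneg hθ0, abs_of_nonneg (by linarith)] at h10
      have h11 := hK₂ l hl
      have h12 := n1_nonneg v'
      have h13 := n1_nonneg (cst (v l) + (M * h) • D)
      have h14 : (1 - θ) * n1 v' ≤ 1 * n1 v' := mul_le_mul_of_nonneg_right (by linarith) h12
      have h15 : θ * n1 (cst (v l) + (M * h) • D) ≤ 1 * n1 (cst (v l) + (M * h) • D) :=
        mul_le_mul_of_nonneg_right hθ1 h13
      linarith
    nlinarith
  have h7 := hunif (shf v a e X l)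
  have h8 := stab_le_p hp (shf v a e Y l)
  have h9 := mul_le_mul_of_nonneg_left h6 hε
  linarith

end Pool.Agent.AGeo
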