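import Pool.Agent.AGeo.Ana
import Pool.Agent.AutGeo.ADefs

/-!
From the interface of `AutGeo` (properties `PHyp`, `PropQ`) to the contradiction.
-/

set_option autoImplicit false

namespace Pool.Agent.AGeo

/-- sign of a crossing -/
def sg (b : Bool) : ℤˣ := if b then 1 else -1

lemma T_sg (b : Bool) : AutGeo.T (sg b) = TZ b := by
  cases b <;> rfl

lemma T'_sg (b : Bool) : AutGeo.T' (sg b) = TZ (!b) := by
  cases b <;> rfl

lemma sg_inj {b b' : Bool} (h : sg b = sg b') : b = b' := by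
  revert h
  cases b <;> cases b' <;> simp [sg]

lemma rot_one_eq (v : ℤ × ℤ) : AutGeo.rot 1 v = rotZ v := by
  rw [AutGeo.rot_one]; rfl

lemma rot_cast (a : ℕ) (v : ℤ × ℤ) : AutGeo.rot (a : ZMod 4) v = rotZ^[a] v := by
  induction a with
  | zero => simp [AutGeo.rot_zero]
  | succ a ih =>
    rw [Function.iterate_succ_apply', ← ih, ← rot_one_eq, ← AutGeo.rot_rot]
    congr 1
    push_cast
    ring

theorem analysis_false (p : ℤ × ℤ → ℝ) (hp : AutGeo.PHyp p) (hQ : AutGeo.PropQ p) : False := by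
  have hL : LenZ p := ⟨hp.zero, hp.add, hp.neg⟩
  obtain ⟨C₁, hC₁⟩ := hp.rot
  obtain ⟨C₂, hC₂⟩ := hp.uw
  obtain ⟨c₀, hc₀, hc₀'⟩ := hp.pos
  obtain ⟨Nc, hNc⟩ := hQ
  refine ana hL (C₀ := max C₁ C₂) (c₀ := c₀) ?_ ?_ hc₀ ?_ (Nc := Nc) ?_
  · intro v
    have h := (abs_le.mp (hC₁ v)).2
    rw [rot_one_eq] at h
    linarith [le_max_left C₁ C₂]
  · intro n
    have h := hC₂ (n : ℤ)
    rw [natCast_zsmul, natCast_zsmul] at h
    exact h.trans (le_max_right _ _)
  · intro n
    have h := hc₀' (n • (2, 2))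
    have h1 : (0 : ℝ) ≤ n := Nat.cast_nonneg n
    have e0 : n • ((2 : ℤ), (2 : ℤ)) = ((n : ℤ) * 2, (n : ℤ) * 2) := by
      ext <;> simp
    have e1 : ((n • ((2 : ℤ), (2 : ℤ))).1 : ℝ) = 2 * n := by
      rw [e0]; push_cast; ring
    have e2 : ((n • ((2 : ℤ), (2 : ℤ))).2 : ℝ) = 2 * n := by
      rw [e0]; push_cast; ring
    rw [e1, e2, abs_of_nonneg (by positivity)] at h
    nlinarith
  · intro m hm
    obtain ⟨C, hC⟩ := hNc m hm
    refine ⟨C, fun v a e hred => ?_⟩
    have key : ∀ (X : ℕ → ℤ) (l : ℕ), (l = 0 → X l = 0) →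
        AutGeo.disp v (fun l => (a l : ZMod 4)) (fun l => sg (e (l + 1))) X l
          = shf v a e X l := by
      intro X l hl
      unfold AutGeo.disp shf AutGeo.Alin AutGeo.Blin
      simp only
      rw [rot_cast, T_sg]
      rcases Nat.eq_zero_or_pos l with h | h
      · rw [hl h]; simp
      · rw [show l - 1 + 1 = l by omega, T'_sg]
    obtain ⟨Y, col, hY0, hYm, hQ0, hrest⟩ := hC v (fun l => (a l : ZMod 4))
      (fun l => sg (e (l + 1))) (by
        rintro l hl ⟨-, -, j, hj⟩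
        rw [T'_sg] at hj
        exact hred (l + 1) (by omega) hl j hj)
    have eY : ∀ l, AutGeo.disp v (fun l => (a l : ZMod 4)) (fun l => sg (e (l + 1))) Y l
        = shf v a e Y l := fun l => key Y l (fun h => by rw [h]; exact hY0)
    refine ⟨Y, col, hY0, hYm, ?_, ?_, ?_⟩
    · intro i j hi1 him hj1 hjm hc
      obtain ⟨h1, h2, -⟩ := hrest i j hi1 him hj1 hjm hc
      refine ⟨?_, h2⟩
      have h3 := sg_inj h1
      rwa [show i - 1 + 1 = i by omega, show j - 1 + 1 = j by omega] at h3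
    · rw [Finset.sum_congr rfl fun l _ => by rw [eY l]] at hQ0
      exact hQ0
    · intro i j hi1 him hj1 hjm hc X X' hX hX' hXX
      obtain ⟨-, -, h3⟩ := hrest i j hi1 him hj1 hjm hc
      have h4 := h3 X X' hX hX' hXX
      have e1 : ∑ l ∈ Finset.range i, p (AutGeo.disp v (fun l => (a l : ZMod 4))
          (fun l => sg (e (l + 1))) Y l) = ∑ l ∈ Finset.range i, p (shf v a e Y l) :=
        Finset.sum_congr rfl fun l _ => by rw [eY l]
      have e2 : ∑ l ∈ Finset.Ico j (m + 1), p (AutGeo.disp v (fun l => (a l : ZMod 4))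
          (fun l => sg (e (l + 1))) Y l) = ∑ l ∈ Finset.Ico j (m + 1), p (shf v a e Y l) :=
        Finset.sum_congr rfl fun l _ => by rw [eY l]
      have e3 : ∑ l ∈ Finset.range i, p (AutGeo.disp v (fun l => (a l : ZMod 4))
          (fun l => sg (e (l + 1))) X l) = ∑ l ∈ Finset.range i, p (shf v a e X l) :=
        Finset.sum_congr rfl fun l _ => by
          rw [key X l (fun h => by rw [h]; exact hX)]
      have e4 : ∑ l ∈ Finset.Ico j (m + 1), p (AutGeo.disp v (fun l => (a l : ZMod 4))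
          (fun l => sg (e (l + 1))) X' l) = ∑ l ∈ Finset.Ico j (m + 1), p (shf v a e X' l) :=
        Finset.sum_congr rfl fun l hl => by
          rw [key X' l (fun h => by rw [Finset.mem_Ico] at hl; omega)]
      rw [e1, e2, e3, e4] at h4
      exact h4

end Pool.Agent.AGeo
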