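import Pool.Agent.AGeo.Start

/-!
The configuration of planes (A8).
-/

set_option autoImplicit false

namespace Pool.Agent.AGeo

/-- cross product -/
def crs (x y : ℝ × ℝ) : ℝ := x.1 * y.2 - x.2 * y.1

lemma crs_zero {X V : ℝ × ℝ} (hV : V ≠ 0) (h : crs X V = 0) : ∃ s : ℝ, X = s • V := by
  obtain ⟨q, hq⟩ : ∃ q : ℝ, q = V.1 * V.1 + V.2 * V.2 := ⟨_, rfl⟩
  have hq0 : q ≠ 0 := by
    intro h0
    rw [hq] at h0
    apply hV
    have h1 : V.1 = 0 := by nlinarith [mul_self_nonneg V.1, mul_self_nonneg V.2]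
    have h2 : V.2 = 0 := by nlinarith [mul_self_nonneg V.1, mul_self_nonneg V.2]
    ext
    · exact h1
    · exact h2
  unfold crs at h
  refine ⟨(X.1 * V.1 + X.2 * V.2) / q, ?_⟩
  ext
  · simp only [Prod.smul_fst, smul_eq_mul]
    field_simp
    rw [hq]
    linear_combination V.2 * h
  · simp only [Prod.smul_snd, smul_eq_mul]
    field_simp
    rw [hq]
    linear_combination (-V.1) * h

/-- the exit or entry direction is transversal to the geodesic direction -/
lemma crs_ne {N : ℝ × ℝ → ℝ} {τ : ℝ} (hN : Nrm N τ) {l A V : ℝ × ℝ} (hV : V ≠ 0)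
    (hlV : ip l V = N V) (hA : |ip l A| < N A) : crs A V ≠ 0 := by
  intro h
  obtain ⟨s, hs⟩ := crs_zero hV h
  rw [hs, ip_smul, hN.smul, abs_mul, hlV, abs_of_nonneg (hN.nonneg V)] at hA
  exact lt_irrefl _ hA

/-- the data of the configuration which do not depend on the precision -/
structure Conf (N : ℝ × ℝ → ℝ) (m n : ℕ) (a : ℕ → ℕ) (e : ℕ → Bool) (c : ℕ → ℝ)
    (lam : ℕ → ℝ × ℝ) (ζ : ℕ → ℝ) (H : ℝ) : Prop where
  hnm : n + 1 ≤ m
  hH : 0 < H
  le : ∀ l ≤ m, ∀ x, ip (lam l) x ≤ N x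
  ent : ∀ l, 1 ≤ l → l ≤ m → ip (lam l) (TR (!(e l))) = c l
  ext : ∀ l, l < m → ip (lam l) (rot^[a l] (TR (e (l + 1)))) = c (l + 1)
  ζ0 : ζ 0 = 0
  ζm : ζ (m + 1) = 0
  ζne : ∀ l, 1 ≤ l → l ≤ m → ζ l ≠ 0
  diff : ∀ i j, 1 ≤ i → i < j → j ≤ n + 1 → e i = e j → c i ≠ c j
  prec : ∀ δ : ℝ, 0 < δ → ∃ V : ℕ → ℝ × ℝ,
    (∀ l, 1 ≤ l → l < m → crs (TR (!(e l))) (V l) ≠ 0) ∧
    ∀ l ≤ m, ∀ h : ℝ, |h| ≤ H →
      N (V l + h • (ζ (l + 1) • (rot^[a l] (TR (e (l + 1)))) - ζ l • TR (!(e l))))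
      ≤ ip (lam l) (V l + h • (ζ (l + 1) • (rot^[a l] (TR (e (l + 1)))) - ζ l • TR (!(e l))))
        + δ

/-- the coefficients -/
noncomputable def zet (q : ℕ → ℝ) : ℕ → ℝ
  | 0 => 0
  | 1 => 1
  | (l + 2) => zet q (l + 1) * q (l + 1)

theorem exists_conf {N : ℝ × ℝ → ℝ} {τ : ℝ} (hN : Nrm N τ) (n : ℕ) :
    ∃ (m : ℕ) (a : ℕ → ℕ) (e : ℕ → Bool) (c : ℕ → ℝ) (lam : ℕ → ℝ × ℝ) (ζ : ℕ → ℝ) (H : ℝ),
      Conf N m n a e c lam ζ H := by
  have hτ := hN.pos
  obtain ⟨V₀, l₀, c₁, hc₁, hl₀, hl₀u, hl₀d⟩ := exists_start hN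
  obtain ⟨m', x, hnm, hx0, hxm, hst, hdist⟩ := exists_walk hN c₁ hc₁ n
  set e : ℕ → Bool := fun l => (x (l - 1)).2 with he
  set c : ℕ → ℝ := fun l => (x (l - 1)).1 with hc
  -- plane data
  have hpl : ∀ l : ℕ, ∃ q : (ℝ × ℝ) × ℕ × (ℝ × ℝ), 1 ≤ l → l ≤ m' →
      (∀ y, ip q.1 y ≤ N y) ∧ ip q.1 (TR (!(e l))) = c l ∧
      ip q.1 (rot^[q.2.1] (TR (e (l + 1)))) = c (l + 1) ∧ q.2.2 ≠ 0 ∧
      ip q.1 q.2.2 = N q.2.2 ∧ |c l| < τ ∧ |c (l + 1)| < τ := by
    intro l
    by_cases h : 1 ≤ l ∧ l ≤ m'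
    · obtain ⟨h1, h2, lm, ⟨hlm1, V, hV0, hV⟩, aa, ha, hb⟩ := hst (l - 1) (by omega)
      rw [show l - 1 + 1 = l by omega] at h2 hb
      refine ⟨(lm, aa, V), fun _ _ => ⟨hlm1, ha, ?_, hV0, hV, h1, ?_⟩⟩
      · simp only [he, hc, Nat.add_sub_cancel]; exact hb
      · simp only [hc, Nat.add_sub_cancel]; exact h2
    · exact ⟨(0, 0, 0), fun h1 h2 => absurd ⟨h1, h2⟩ h⟩
  choose q hq using hpl
  set m : ℕ := m' + 1 with hm
  set a : ℕ → ℕ := fun l => if 1 ≤ l ∧ l ≤ m' then (q l).2.1 else 0 with ha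
  set lam : ℕ → ℝ × ℝ := fun l => if 1 ≤ l ∧ l ≤ m' then (q l).1 else l₀ with hlam
  set A : ℕ → ℝ × ℝ := fun l => rot^[a l] (TR (e (l + 1))) with hA
  set B : ℕ → ℝ × ℝ := fun l => TR (!(e l)) with hB
  set W : ℕ → ℝ × ℝ := fun l => (q l).2.2 with hW
  have hNA : ∀ l, N (A l) = τ := fun l => by rw [hA]; simp only; rw [N_iter hN, N_TR hN]
  have hNB : ∀ l, N (B l) = τ := fun l => by rw [hB]; exact N_TR hN _
  -- facts for inner planes
  have hin : ∀ l, 1 ≤ l → l ≤ m' → (∀ y, ip (lam l) y ≤ N y) ∧ ip (lam l) (B l) = c l ∧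
      ip (lam l) (A l) = c (l + 1) ∧ W l ≠ 0 ∧ ip (lam l) (W l) = N (W l) ∧ crs (A l) (W l) ≠ 0
      ∧ crs (B l) (W l) ≠ 0 := by
    intro l h1 h2
    obtain ⟨g1, g2, g3, g4, g5, g6, g7⟩ := hq l h1 h2
    have e1 : lam l = (q l).1 := by simp only [hlam, h1, h2, and_self, if_true]
    have e2 : a l = (q l).2.1 := by simp only [ha, h1, h2, and_self, if_true]
    have e3 : A l = rot^[(q l).2.1] (TR (e (l + 1))) := by simp only [hA, e2]
    rw [e1]
    refine ⟨g1, g2, by rw [e3]; exact g3, g4, g5, ?_, ?_⟩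
    · refine crs_ne hN g4 g5 ?_
      rw [hNA, e3, g3]; exact g7
    · refine crs_ne hN g4 g5 ?_
      rw [hNB]
      have : ip (q l).1 (B l) = c l := g2
      rw [this]; exact g6
  have hout0 : lam 0 = l₀ := by simp [hlam]
  have houtm : lam m = l₀ := by
    have : ¬ m ≤ m' := by omega
    simp [hlam, this]
  have ha0 : a 0 = 0 := by simp [ha]
  have he1 : e 1 = true := by simp [he, hx0]
  have hem : e m = false := by simp [he, hm, hxm]
  have hc1 : c 1 = c₁ := by simp [hc, hx0]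
  have hcm : c m = c₁ := by simp [hc, hm, hxm]
  have hA0 : A 0 = TR true := by
    simp only [hA, ha0, Function.iterate_zero, id]
    rw [zero_add, he1]
  have hBm : B m = TR true := by
    simp only [hB, hem, Bool.not_false]
  -- coefficients
  set qq : ℕ → ℝ := fun l => crs (B l) (W l) / crs (A l) (W l) with hqq
  set ζ : ℕ → ℝ := fun l => if l ≤ m then zet qq l else 0 with hζ
  have hz0 : ∀ l, 1 ≤ l → l ≤ m → zet qq l ≠ 0 := by
    intro l
    induction l with
    | zero => intro h; omega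
    | succ l ih =>
      intro _ h2
      cases l with
      | zero => simp [zet]
      | succ k =>
        have h3 := ih (by omega) (by omega)
        obtain ⟨-, -, -, -, -, g6, g7⟩ := hin (k + 1) (by omega) (by omega)
        show zet qq (k + 2) ≠ 0
        rw [zet]
        exact mul_ne_zero h3 (div_ne_zero g7 g6)
  have hζs : ∀ l, 1 ≤ l → l ≤ m' → ∃ s : ℝ, ζ (l + 1) • A l - ζ l • B l = s • W l := by
    intro l h1 h2
    obtain ⟨-, -, -, g4, -, g6, g7⟩ := hin l h1 h2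
    refine crs_zero g4 ?_
    have e1 : ζ (l + 1) = ζ l * qq l := by
      simp only [hζ, show l + 1 ≤ m by omega, show l ≤ m by omega, if_true]
      obtain ⟨k, rfl⟩ : ∃ k, l = k + 1 := ⟨l - 1, by omega⟩
      rfl
    have e2 : crs (ζ (l + 1) • A l - ζ l • B l) (W l)
        = ζ (l + 1) * crs (A l) (W l) - ζ l * crs (B l) (W l) := by
      unfold crs
      simp only [Prod.fst_sub, Prod.snd_sub, Prod.smul_fst, Prod.smul_snd, smul_eq_mul]
      ring
    rw [e2, e1, hqq]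
    field_simp
    ring
  choose! s hs using hζs
  set H : ℝ := 1 / (1 + ∑ l ∈ Finset.range m, |s l|) with hH
  have hSpos : 0 < 1 + ∑ l ∈ Finset.range m, |s l| := by
    have : 0 ≤ ∑ l ∈ Finset.range m, |s l| := Finset.sum_nonneg fun l _ => abs_nonneg _
    linarith
  have hHpos : 0 < H := by rw [hH]; positivity
  have hHs : ∀ l, l < m → H * |s l| ≤ 1 := by
    intro l hl
    have h1 : |s l| ≤ ∑ l ∈ Finset.range m, |s l| :=
      Finset.single_le_sum (f := fun l => |s l|) (fun l _ => abs_nonneg _)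
        (Finset.mem_range.mpr hl)
    rw [hH, one_div, inv_mul_le_iff₀ hSpos]
    linarith
  refine ⟨m, a, e, c, lam, ζ, H, ?_⟩
  refine ⟨by omega, hHpos, ?_, ?_, ?_, ?_, ?_, ?_, ?_, ?_⟩
  · intro l hl
    by_cases h : 1 ≤ l ∧ l ≤ m'
    · exact (hin l h.1 h.2).1
    · have h1 : lam l = l₀ := by simp only [hlam, h, if_false]
      rw [h1]; exact hl₀
  · intro l h1 h2
    by_cases h : l ≤ m'
    · exact (hin l h1 h).2.1
    · have h3 : l = m := by omega
      rw [h3, houtm, hcm, hem, Bool.not_false]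
      exact hl₀u
  · intro l h2
    by_cases h : 1 ≤ l
    · exact (hin l h (by omega)).2.2.1
    · have h3 : l = 0 := by omega
      subst h3
      rw [hout0, ha0, Function.iterate_zero, id, zero_add, he1, hc1]
      exact hl₀u
  · simp [hζ, zet]
  · simp [hζ]
  · intro l h1 h2
    simp only [hζ, h2, if_true]
    exact hz0 l h1 h2
  · intro i j h1 h2 h3 h4 h5
    refine hdist (i - 1) (j - 1) (by omega) (by omega) ?_
    exact Prod.ext h5 h4
  · intro δ hδ
    -- precision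
    set Z : ℝ := H * (|ζ 1| + |ζ m|) + 1 with hZ
    have hZpos : 0 < Z := by positivity
    obtain ⟨r, hr, hr'⟩ := hl₀d (δ / Z) (by positivity)
    set R : ℝ := Z / r with hR
    have hRpos : 0 < R := by positivity
    have hend : ∀ y : ℝ, |y| ≤ Z →
        N (R • V₀ + y • TR true) ≤ ip l₀ (R • V₀ + y • TR true) + δ := by
      intro y hy
      have h1 := hr' (y / R) (by
        rw [abs_div, abs_of_pos hRpos, div_le_iff₀ hRpos, hR]
        rw [mul_div_cancel₀ _ hr.ne']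
        exact hy)
      have e1 : R • V₀ + y • TR true = R • (V₀ + (y / R) • TR true) := by
        rw [smul_add, smul_smul, mul_div_cancel₀ _ hRpos.ne']
      rw [e1, hN.smul, ip_smul, abs_of_pos hRpos]
      have h2 := mul_le_mul_of_nonneg_left h1 hRpos.le
      have h3 : R * (δ / Z * |y / R|) ≤ δ := by
        rw [abs_div, abs_of_pos hRpos]
        have h4 : R * (δ / Z * (|y| / R)) = δ / Z * |y| := by field_simp
        rw [h4, div_mul_eq_mul_div, div_le_iff₀ hZpos]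
        nlinarith
      linarith
    refine ⟨fun l => if 1 ≤ l ∧ l ≤ m' then W l else R • V₀, ?_, ?_⟩
    · intro l h1 h2
      have h3 : 1 ≤ l ∧ l ≤ m' := ⟨h1, by omega⟩
      simp only [h3, and_self, if_true]
      exact (hin l h3.1 h3.2).2.2.2.2.2.2
    · intro l hl h hh
      by_cases h3 : 1 ≤ l ∧ l ≤ m'
      · simp only [h3, and_self, if_true]
        obtain ⟨g1, g2, g3, g4, g5, g6, g7⟩ := hin l h3.1 h3.2
        have e1 : ζ (l + 1) • rot^[a l] (TR (e (l + 1))) - ζ l • TR (!(e l)) = s l • W l :=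
          hs l h3.1 h3.2
        have e2 : W l + h • (s l • W l) = (1 + h * s l) • W l := by module
        rw [e1, e2, hN.smul, ip_smul, g5]
        have h4 : |h * s l| ≤ 1 := by
          rw [abs_mul]
          exact (mul_le_mul_of_nonneg_right hh (abs_nonneg _)).trans (hHs l (by omega))
        have h5 := (abs_le.mp h4).1
        rw [abs_of_nonneg (by linarith)]
        linarith
      · simp only [h3, if_false]
        have h4 : l = 0 ∨ l = m := by omega
        rcases h4 with h4 | h4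
        · subst h4
          have e0 : ζ 0 = 0 := by simp [hζ, zet]
          have e1 : ζ (0 + 1) • rot^[a 0] (TR (e (0 + 1))) - ζ 0 • TR (!(e 0))
              = ζ 1 • TR true := by
            have h5 : rot^[a 0] (TR (e (0 + 1))) = TR true := hA0
            rw [h5, e0, zero_smul, sub_zero]
          rw [e1, hout0, smul_smul]
          refine hend _ ?_
          rw [abs_mul, hZ]
          nlinarith [abs_nonneg h, abs_nonneg (ζ 1), abs_nonneg (ζ m)]
        · subst h4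
          have e0 : ζ (m + 1) = 0 := by simp [hζ]
          have e1 : ζ (m + 1) • rot^[a m] (TR (e (m + 1))) - ζ m • TR (!(e m))
              = (-ζ m) • TR true := by
            have h5 : TR (!(e m)) = TR true := hBm
            rw [h5, e0, zero_smul, zero_sub, neg_smul]
          rw [e1, houtm, smul_smul]
          refine hend _ ?_
          rw [abs_mul, abs_neg, hZ]
          nlinarith [abs_nonneg h, abs_nonneg (ζ 1), abs_nonneg (ζ m)]

end Pool.Agent.AGeo
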