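import Pool.Agent.AGeo.Dual

/-!
A finite set of momenta is not closed: the quadratic sum over the functionals.
-/

set_option autoImplicit false

namespace Pool.Agent.AGeo

/-- the two directions, real plane -/
noncomputable def TR (e : Bool) : ℝ × ℝ := if e then (3, 0) else (2, 2)

lemma N_TR {N : ℝ × ℝ → ℝ} {τ : ℝ} (hN : Nrm N τ) (e : Bool) : N (TR e) = τ := by
  unfold TR
  cases e
  · simpa using hN.w
  · simpa using hN.u

lemma rot_iter4 (x : ℝ × ℝ) : rot^[4] x = x := by
  simp only [Function.iterate_succ, Function.comp_apply, Function.iterate_zero, id_eq]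
  rw [rot_rot, rot_rot, neg_neg]

lemma N_iter {N : ℝ × ℝ → ℝ} {τ : ℝ} (hN : Nrm N τ) (a : ℕ) (x : ℝ × ℝ) :
    N (rot^[a] x) = N x := by
  induction a with
  | zero => rfl
  | succ a ih => rw [Function.iterate_succ_apply', hN.rot, ih]

lemma star_rot {N : ℝ × ℝ → ℝ} {τ : ℝ} (hN : Nrm N τ) {l : ℝ × ℝ} (hl : Star N l) :
    Star N (rot l) := by
  obtain ⟨h1, x, hx0, hx⟩ := hl
  refine ⟨fun y => ?_, rot x, ?_, ?_⟩
  · have h2 : y = rot (-rot y) := by
      unfold rot; ext <;> simp
    rw [h2, ip_rot_rot, hN.rot]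
    exact h1 _
  · intro h
    apply hx0
    have h3 := rot_rot x
    rw [h] at h3
    have h4 : rot (0 : ℝ × ℝ) = 0 := by unfold rot; ext <;> simp
    rw [h4] at h3
    rw [← neg_neg x, ← h3, neg_zero]
  · rw [ip_rot_rot, hN.rot, hx]

lemma abs_ip_le {N : ℝ × ℝ → ℝ} {τ : ℝ} (hN : Nrm N τ) {l : ℝ × ℝ} (hl : Star N l)
    (x : ℝ × ℝ) : |ip l x| ≤ N x := by
  rw [abs_le]
  constructor
  · have h := hl.1 (-x)
    rw [ip_neg, hN.neg] at h
    linarith
  · exact hl.1 x

theorem not_closed {N : ℝ × ℝ → ℝ} {τ : ℝ} (hN : Nrm N τ) (C : Finset ℝ) (hne : C.Nonempty)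
    (hlt : ∀ c ∈ C, |c| < τ)
    (hcl : ∀ l, Star N l → ∀ e : Bool, ip l (TR e) ∈ C → ∀ (e' : Bool) (a : ℕ),
      |ip l (rot^[a] (TR e'))| < τ → ip l (rot^[a] (TR e')) ∈ C) : False := by
  classical
  have hτ := hN.pos
  -- the finite set of functionals
  set Λ : Set (ℝ × ℝ) := {m | Star N m ∧ ∃ (a : ℕ) (e : Bool), ip m (rot^[a] (TR e)) ∈ C} with hΛ
  -- composition with rotations
  have hiter : ∀ (a : ℕ) (m x : ℝ × ℝ), ip (rot^[a] m) (rot^[a] x) = ip m x := by
    intro a
    induction a with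
    | zero => intro m x; rfl
    | succ a ih => intro m x; rw [Function.iterate_succ_apply', Function.iterate_succ_apply',
        ip_rot_rot, ih]
  have hsiter : ∀ (a : ℕ) (m : ℝ × ℝ), Star N m → Star N (rot^[a] m) := by
    intro a
    induction a with
    | zero => intro m hm; exact hm
    | succ a ih => intro m hm; rw [Function.iterate_succ_apply']; exact star_rot hN (ih m hm)
  have h4 : ∀ (b : ℕ) (x : ℝ × ℝ), rot^[4 * b] x = x := by
    intro b
    induction b with
    | zero => intro x; rfl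
    | succ b ih => intro x; rw [Nat.mul_succ, Function.iterate_add_apply, rot_iter4, ih]
  have hback : ∀ (a : ℕ) (m x : ℝ × ℝ), ip m (rot^[a] x) = ip (rot^[3 * a] m) x := by
    intro a m x
    have h1 := hiter (3 * a) m (rot^[a] x)
    rw [← Function.iterate_add_apply, show 3 * a + a = 4 * a by ring, h4] at h1
    exact h1.symm
  have hclose : ∀ m ∈ Λ, ∀ (e' : Bool) (b : ℕ), |ip m (rot^[b] (TR e'))| < τ →
      ip m (rot^[b] (TR e')) ∈ C := by
    rintro m ⟨hm, a, e, hC⟩ e' b hb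
    rw [hback a] at hC
    have h1 := hcl (rot^[3 * a] m) (hsiter _ _ hm) e hC e' (b + 3 * a)
    have h2 : ip (rot^[3 * a] m) (rot^[b + 3 * a] (TR e')) = ip m (rot^[b] (TR e')) := by
      rw [Nat.add_comm, Function.iterate_add_apply, hiter]
    rw [h2] at h1
    exact h1 hb
  have hval : ∀ m ∈ Λ, ∀ e : Bool, ip m (TR e) ∈ insert τ (insert (-τ) C) := by
    intro m hm e
    rw [Finset.mem_insert, Finset.mem_insert]
    by_cases h : |ip m (TR e)| < τ
    · right; right; exact hclose m hm e 0 h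
    · have h1 := abs_ip_le hN hm.1 (TR e)
      rw [N_TR hN] at h1
      have h2 : |ip m (TR e)| = τ := le_antisymm h1 (not_lt.mp h)
      rcases abs_cases (ip m (TR e)) with ⟨h3, -⟩ | ⟨h3, -⟩
      · left; linarith
      · right; left; linarith
  have hfin : Λ.Finite := by
    refine Set.Finite.of_injOn (f := fun m => (ip m (TR true), ip m (TR false)))
      (t := ((insert τ (insert (-τ) C)) ×ˢ (insert τ (insert (-τ) C)) : Finset (ℝ × ℝ)))
      ?_ ?_ (Finset.finite_toSet _)
    · intro m hm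
      simp only [Finset.coe_product, Set.mem_prod, Finset.mem_coe]
      exact ⟨hval m hm true, hval m hm false⟩
    · intro m _ m' _ h
      simp only [Prod.mk.injEq] at h
      obtain ⟨h1, h2⟩ := h
      unfold ip TR at h1 h2
      simp only [if_true, Bool.false_eq_true, if_false] at h1 h2
      have h3 : m.1 = m'.1 := by linarith
      have h5 : m.2 = m'.2 := by linarith
      ext
      · exact h3
      · exact h5
  set L : Finset (ℝ × ℝ) := hfin.toFinset with hL
  have hmem : ∀ m, m ∈ L ↔ m ∈ Λ := fun m => hfin.mem_toFinset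
  -- the sum over L for the direction e
  have hsum : ∀ e : Bool, ∑ m ∈ L, (ip m (TR e)) ^ 2
      = 2 * ∑ c ∈ C, c ^ 2 + τ ^ 2 * ((L.card : ℝ) - 2 * C.card) := by
    intro e
    rw [← Finset.sum_filter_add_sum_filter_not L (fun m => |ip m (TR e)| < τ)]
    have hmaps : ∀ m ∈ L.filter (fun m => |ip m (TR e)| < τ), ip m (TR e) ∈ C := by
      intro m hm
      rw [Finset.mem_filter, hmem] at hm
      exact hclose m hm.1 e 0 hm.2
    have hfib : ∀ c ∈ C, ∃ s : Finset (ℝ × ℝ), s.card = 2 ∧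
        (L.filter (fun m => |ip m (TR e)| < τ)).filter (fun m => ip m (TR e) = c) = s := by
      intro c hc
      obtain ⟨s, hs2, hs⟩ := two_star hN (N_TR hN e) (hlt c hc)
      refine ⟨s, hs2, ?_⟩
      ext m
      rw [Finset.mem_filter, Finset.mem_filter, hmem, hs]
      constructor
      · rintro ⟨⟨h1, -⟩, h3⟩
        exact ⟨h1.1, h3⟩
      · rintro ⟨h1, h2⟩
        refine ⟨⟨⟨h1, 0, e, ?_⟩, ?_⟩, h2⟩
        · rw [Function.iterate_zero, id, h2]; exact hc
        · rw [h2]; exact hlt c hc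
    have hA : ∑ m ∈ L.filter (fun m => |ip m (TR e)| < τ), (ip m (TR e)) ^ 2
        = 2 * ∑ c ∈ C, c ^ 2 := by
      rw [← Finset.sum_fiberwise_of_maps_to hmaps, Finset.mul_sum]
      refine Finset.sum_congr rfl fun c hc => ?_
      obtain ⟨s, hs2, hs⟩ := hfib c hc
      have h1 : ∀ m ∈ (L.filter (fun m => |ip m (TR e)| < τ)).filter
          (fun m => ip m (TR e) = c), (ip m (TR e)) ^ 2 = c ^ 2 := by
        intro m hm
        rw [Finset.mem_filter] at hm
        rw [hm.2]
      rw [Finset.sum_congr rfl h1, Finset.sum_const, hs, hs2]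
      simp
    have hcard : ((L.filter (fun m => |ip m (TR e)| < τ)).card : ℝ) = 2 * C.card := by
      rw [Finset.card_eq_sum_card_fiberwise hmaps]
      have h1 : ∀ c ∈ C, ((L.filter (fun m => |ip m (TR e)| < τ)).filter
          (fun m => ip m (TR e) = c)).card = 2 := by
        intro c hc
        obtain ⟨s, hs2, hs⟩ := hfib c hc
        rw [hs, hs2]
      rw [Finset.sum_congr rfl h1, Finset.sum_const, smul_eq_mul]
      push_cast
      ring
    have hB : ∑ m ∈ L.filter (fun m => ¬ |ip m (TR e)| < τ), (ip m (TR e)) ^ 2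
        = τ ^ 2 * ((L.card : ℝ) - 2 * C.card) := by
      have h1 : ∀ m ∈ L.filter (fun m => ¬ |ip m (TR e)| < τ), (ip m (TR e)) ^ 2 = τ ^ 2 := by
        intro m hm
        rw [Finset.mem_filter, hmem] at hm
        have h2 := abs_ip_le hN hm.1.1 (TR e)
        rw [N_TR hN] at h2
        have h3 : |ip m (TR e)| = τ := le_antisymm h2 (not_lt.mp hm.2)
        rw [← sq_abs, h3]
      rw [Finset.sum_congr rfl h1, Finset.sum_const, nsmul_eq_mul]
      have h2 := Finset.card_filter_add_card_filter_not (s := L) (fun m => |ip m (TR e)| < τ)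
      have h3 : ((L.filter (fun m => |ip m (TR e)| < τ)).card : ℝ)
          + ((L.filter (fun m => ¬ |ip m (TR e)| < τ)).card : ℝ) = L.card := by
        exact_mod_cast h2
      rw [hcard] at h3
      have h4 : ((L.filter (fun m => ¬ |ip m (TR e)| < τ)).card : ℝ)
          = (L.card : ℝ) - 2 * C.card := by linarith
      rw [h4]
      ring
    rw [hA, hB]
  -- invariance
  have hrotmem : ∀ m ∈ L, rot m ∈ L := by
    intro m hm
    rw [hmem] at hm ⊢
    obtain ⟨h1, a, e, h2⟩ := hm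
    refine ⟨star_rot hN h1, a + 1, e, ?_⟩
    rw [Function.iterate_succ_apply', ip_rot_rot]
    exact h2
  have hinv : ∀ f : ℝ × ℝ → ℝ, ∑ m ∈ L, f (rot m) = ∑ m ∈ L, f m := by
    intro f
    refine Finset.sum_bij' (fun m _ => rot m) (fun m _ => rot (rot (rot m))) ?_ ?_ ?_ ?_ ?_
    · exact fun m hm => hrotmem m hm
    · exact fun m hm => hrotmem _ (hrotmem _ (hrotmem m hm))
    · intro m _
      exact rot_iter4 m
    · intro m _
      exact rot_iter4 m
    · intro m _; rfl
  have e1 : ∑ m ∈ L, m.2 ^ 2 = ∑ m ∈ L, m.1 ^ 2 := by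
    have h := hinv fun m => m.1 ^ 2
    simp only [rot, neg_sq] at h
    exact h
  have e2 : ∑ m ∈ L, m.1 * m.2 = 0 := by
    have h := hinv fun m => m.1 * m.2
    simp only [rot] at h
    have h1 : ∑ m ∈ L, -m.2 * m.1 = -∑ m ∈ L, m.1 * m.2 := by
      rw [← Finset.sum_neg_distrib]
      exact Finset.sum_congr rfl fun m _ => by ring
    rw [h1] at h
    linarith
  have e3 : ∑ m ∈ L, (ip m (TR true)) ^ 2 = 9 * ∑ m ∈ L, m.1 ^ 2 := by
    rw [Finset.mul_sum]
    refine Finset.sum_congr rfl fun m _ => ?_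
    unfold ip TR
    simp only [if_true]
    ring
  have e4 : ∑ m ∈ L, (ip m (TR false)) ^ 2
      = 4 * ∑ m ∈ L, m.1 ^ 2 + 8 * ∑ m ∈ L, m.1 * m.2 + 4 * ∑ m ∈ L, m.2 ^ 2 := by
    rw [Finset.mul_sum, Finset.mul_sum, Finset.mul_sum, ← Finset.sum_add_distrib,
      ← Finset.sum_add_distrib]
    refine Finset.sum_congr rfl fun m _ => ?_
    unfold ip TR
    simp only [Bool.false_eq_true, if_false]
    ring
  rw [e1, e2] at e4
  have e5 := (hsum true).trans (hsum false).symm
  rw [e3, e4] at e5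
  have e6 : ∑ m ∈ L, m.1 ^ 2 = 0 := by linarith
  have e7 : ∑ m ∈ L, m.2 ^ 2 = 0 := by rw [e1, e6]
  obtain ⟨c, hc⟩ := hne
  obtain ⟨s, hs2, hs⟩ := two_star hN (N_TR hN true) (hlt c hc)
  have hs0 : s.Nonempty := by
    rw [← Finset.card_pos, hs2]; norm_num
  obtain ⟨m, hm⟩ := hs0
  obtain ⟨hm1, hm2⟩ := (hs m).mp hm
  have hmL : m ∈ L := by
    rw [hmem]
    refine ⟨hm1, 0, true, ?_⟩
    rw [Function.iterate_zero, id, hm2]; exact hc
  have h1 := (Finset.sum_eq_zero_iff_of_nonneg fun m _ => sq_nonneg m.1).mp e6 m hmL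
  have h2 := (Finset.sum_eq_zero_iff_of_nonneg fun m _ => sq_nonneg m.2).mp e7 m hmL
  have h3 : m.1 = 0 := by simpa using h1
  have h5 : m.2 = 0 := by simpa using h2
  obtain ⟨-, x, hx0, hx⟩ := hm1
  have h6 := hN.pos_of_ne hx0
  unfold ip at hx
  rw [h3, h5] at hx
  linarith

end Pool.Agent.AGeo
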