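import Pool.Agent.AGeo.Stable2

/-!
Boundary functionals of a norm invariant under the quarter turn; the counting argument.
-/

set_option autoImplicit false

namespace Pool.Agent.AGeo

/-- pairing of a functional with a vector -/
def ip (l x : ℝ × ℝ) : ℝ := l.1 * x.1 + l.2 * x.2

lemma ip_add (l x y : ℝ × ℝ) : ip l (x + y) = ip l x + ip l y := by
  unfold ip; simp only [Prod.fst_add, Prod.snd_add]; ring

lemma ip_sub (l x y : ℝ × ℝ) : ip l (x - y) = ip l x - ip l y := by
  unfold ip; simp only [Prod.fst_sub, Prod.snd_sub]; ring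

lemma ip_smul (l : ℝ × ℝ) (c : ℝ) (x : ℝ × ℝ) : ip l (c • x) = c * ip l x := by
  unfold ip; simp only [Prod.smul_fst, Prod.smul_snd, smul_eq_mul]; ring

lemma ip_neg (l x : ℝ × ℝ) : ip l (-x) = -ip l x := by
  unfold ip; simp only [Prod.fst_neg, Prod.snd_neg]; ring

lemma ip_rot_rot (l x : ℝ × ℝ) : ip (rot l) (rot x) = ip l x := by
  unfold ip rot; simp only; ring

/-- boundary functionals -/
def Star (N : ℝ × ℝ → ℝ) (l : ℝ × ℝ) : Prop :=
  (∀ x, ip l x ≤ N x) ∧ ∃ x, x ≠ 0 ∧ ip l x = N x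

namespace Nrm

variable {N : ℝ × ℝ → ℝ} {τ : ℝ} (hN : Nrm N τ)

include hN

lemma zero : N 0 = 0 := by
  have h := hN.smul 0 0
  simpa using h

lemma neg (x : ℝ × ℝ) : N (-x) = N x := by
  have h := hN.smul (-1) x
  simpa using h

lemma nonneg (x : ℝ × ℝ) : 0 ≤ N x := by
  have h := hN.add x (-x)
  rw [hN.neg, add_neg_cancel, hN.zero] at h
  linarith

lemma sub_le (x y : ℝ × ℝ) : N (x - y) ≤ N x + N y := by
  have h := hN.add x (-y)
  rw [hN.neg] at h
  rwa [sub_eq_add_neg]

lemma le_n1 (x : ℝ × ℝ) : N x ≤ (τ / 3) * n1 x := by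
  have h1 : N (1, 0) = τ / 3 := by
    have h := hN.smul 3 (1, 0)
    have e : (3 : ℝ) • ((1 : ℝ), (0 : ℝ)) = (3, 0) := by ext <;> simp
    rw [e, hN.u, abs_of_pos (by norm_num)] at h
    linarith
  have h2 : N (0, 1) = τ / 3 := by
    have h := hN.rot (1, 0)
    have e : Pool.Agent.AGeo.rot ((1 : ℝ), (0 : ℝ)) = (0, 1) := by
      unfold Pool.Agent.AGeo.rot; ext <;> simp
    rw [e] at h
    rw [h, h1]
  have e : x = x.1 • ((1 : ℝ), (0 : ℝ)) + x.2 • ((0 : ℝ), (1 : ℝ)) := by ext <;> simp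
  have h3 := hN.add (x.1 • ((1 : ℝ), (0 : ℝ))) (x.2 • ((0 : ℝ), (1 : ℝ)))
  rw [← e, hN.smul, hN.smul, h1, h2] at h3
  unfold n1
  linarith

lemma n1_le (x : ℝ × ℝ) : (τ / 8) * n1 x ≤ N x := by
  have hτ := hN.pos
  have e : (x.1 * x.1 + x.2 * x.2) • ((2 : ℝ), (2 : ℝ))
      = (2 * (x.1 + x.2)) • x + (2 * (x.1 - x.2)) • Pool.Agent.AGeo.rot x := by
    unfold Pool.Agent.AGeo.rot
    ext
    · simp only [Prod.smul_mk, smul_eq_mul, Prod.fst_add, Prod.smul_fst]; ring
    · simp only [Prod.smul_mk, smul_eq_mul, Prod.snd_add, Prod.smul_snd]; ring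
  have h := hN.add ((2 * (x.1 + x.2)) • x) ((2 * (x.1 - x.2)) • Pool.Agent.AGeo.rot x)
  rw [← e, hN.smul, hN.smul, hN.smul, hN.rot, hN.w] at h
  rcases eq_or_lt_of_le (n1_nonneg x) with h0 | h0
  · rw [← h0, mul_zero]; exact hN.nonneg x
  have h1 : n1 x * n1 x ≤ 2 * (x.1 * x.1 + x.2 * x.2) := by
    unfold n1
    nlinarith [sq_nonneg (|x.1| - |x.2|), abs_mul_abs_self x.1, abs_mul_abs_self x.2]
  have h2 : |2 * (x.1 + x.2)| + |2 * (x.1 - x.2)| ≤ 4 * n1 x := by
    unfold n1
    rw [abs_mul, abs_mul, abs_of_pos (by norm_num : (0 : ℝ) < 2)]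
    have a1 := abs_add_le x.1 x.2
    have a2 : |x.1 - x.2| ≤ |x.1| + |x.2| := by
      have := abs_add_le x.1 (-x.2)
      rwa [abs_neg, ← sub_eq_add_neg] at this
    linarith
  have hxx : 0 ≤ x.1 * x.1 + x.2 * x.2 := by
    nlinarith [mul_self_nonneg x.1, mul_self_nonneg x.2]
  rw [abs_of_nonneg hxx] at h
  have hn := hN.nonneg x
  have h3 : (x.1 * x.1 + x.2 * x.2) * τ ≤ 4 * n1 x * N x := by
    calc (x.1 * x.1 + x.2 * x.2) * τ ≤ _ := h
      _ = (|2 * (x.1 + x.2)| + |2 * (x.1 - x.2)|) * N x := by ring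
      _ ≤ _ := mul_le_mul_of_nonneg_right h2 hn
  have h4 : n1 x * n1 x * τ ≤ 2 * ((x.1 * x.1 + x.2 * x.2) * τ) := by nlinarith
  have h5 : n1 x * (n1 x * τ) ≤ n1 x * (8 * N x) := by nlinarith
  have h6 := le_of_mul_le_mul_left h5 h0
  linarith

lemma pos_of_ne {x : ℝ × ℝ} (hx : x ≠ 0) : 0 < N x := by
  have h := hN.n1_le x
  have h1 : 0 < n1 x := lt_of_le_of_ne (n1_nonneg x) fun h => hx (n1_eq_zero h.symm)
  have := hN.pos
  exact lt_of_lt_of_le (by positivity) h

lemma lip (x y : ℝ × ℝ) : N x ≤ N y + (τ / 3) * n1 (x - y) := by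
  have h := hN.add y (x - y)
  rw [add_sub_cancel] at h
  linarith [hN.le_n1 (x - y)]

lemma cont : Continuous N := by
  have hτ := hN.pos
  have h : ∀ x y, |N x - N y| ≤ (τ / 3) * n1 (x - y) := by
    intro x y
    rw [abs_le]
    have h1 := hN.lip x y
    have h2 := hN.lip y x
    rw [n1_sub_comm] at h2
    constructor <;> linarith
  rw [continuous_iff_continuousAt]
  intro x
  have h1 : Filter.Tendsto (fun y => (τ / 3) * n1 (y - x)) (nhds x) (nhds 0) := by
    have h2 : Continuous fun y : ℝ × ℝ => (τ / 3) * n1 (y - x) := by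
      unfold n1; fun_prop
    have h3 := h2.tendsto x
    simpa [n1_zero] using h3
  exact tendsto_iff_dist_tendsto_zero.mpr
    (squeeze_zero (fun _ => dist_nonneg) (fun y => by rw [Real.dist_eq]; exact h y x) h1)

end Nrm

lemma decomp {T : ℝ × ℝ} (hT : T ≠ 0) (x : ℝ × ℝ) :
    ∃ α β : ℝ, x = β • rot T + α • T := by
  have h : T.1 * T.1 + T.2 * T.2 ≠ 0 := by
    intro h
    apply hT
    have h1 : T.1 = 0 := by nlinarith [mul_self_nonneg T.1, mul_self_nonneg T.2]
    have h2 : T.2 = 0 := by nlinarith [mul_self_nonneg T.1, mul_self_nonneg T.2]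
    ext
    · exact h1
    · exact h2
  obtain ⟨q, hq⟩ : ∃ q : ℝ, q = T.1 * T.1 + T.2 * T.2 := ⟨_, rfl⟩
  rw [← hq] at h
  refine ⟨(x.1 * T.1 + x.2 * T.2) / q, (x.2 * T.1 - x.1 * T.2) / q, ?_⟩
  unfold rot
  ext
  · simp only [Prod.smul_mk, smul_eq_mul, Prod.fst_add, Prod.smul_fst]
    field_simp
    rw [hq]
    ring
  · simp only [Prod.smul_mk, smul_eq_mul, Prod.snd_add, Prod.smul_snd]
    field_simp
    rw [hq]
    ring

/-- minimiser of a coercive function -/
lemma exists_min {N : ℝ × ℝ → ℝ} {τ : ℝ} (hN : Nrm N τ) {T : ℝ × ℝ} (hT : N T = τ)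
    {c : ℝ} (hc : |c| < τ) :
    ∃ α₀ : ℝ, ∀ α : ℝ, N (rot T + α₀ • T) - c * α₀ ≤ N (rot T + α • T) - c * α := by
  have hτ := hN.pos
  have hcont : Continuous fun α : ℝ => N (rot T + α • T) - c * α := by
    have := hN.cont
    fun_prop
  set M : ℝ := 2 * τ / (τ - |c|) with hM
  have hd : 0 < τ - |c| := by linarith
  have hM0 : 0 ≤ M := by positivity
  obtain ⟨α₀, -, h0⟩ := (isCompact_Icc (a := -M) (b := M)).exists_isMinOn
    ⟨0, by constructor <;> linarith⟩ hcont.continuousOn
  refine ⟨α₀, fun α => ?_⟩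
  rw [isMinOn_iff] at h0
  by_cases hα : α ∈ Set.Icc (-M) M
  · exact h0 α hα
  · have h1 : M < |α| := by
      by_contra h
      push Not at h
      exact hα (abs_le.mp h)
    have h2 := h0 0 ⟨by linarith, hM0⟩
    simp only [zero_smul, add_zero, mul_zero, sub_zero] at h2
    rw [hN.rot, hT] at h2
    have h3 : |α| * τ ≤ N (rot T + α • T) + τ := by
      have h4 := hN.sub_le (rot T + α • T) (rot T)
      rw [add_sub_cancel_left, hN.smul, hN.rot, hT] at h4
      exact h4
    have h5 : c * α ≤ |c| * |α| := by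
      rw [← abs_mul]; exact le_abs_self _
    have h6 : 2 * τ ≤ |α| * (τ - |c|) := by
      have h7 : M * (τ - |c|) = 2 * τ := by
        rw [hM]; field_simp
      nlinarith
    nlinarith

/-- exactly two boundary functionals with a given value, in coordinates -/
theorem two_star {N : ℝ × ℝ → ℝ} {τ : ℝ} (hN : Nrm N τ) {T : ℝ × ℝ} (hT : N T = τ)
    {c : ℝ} (hc : |c| < τ) :
    ∃ s : Finset (ℝ × ℝ), s.card = 2 ∧ ∀ l, l ∈ s ↔ Star N l ∧ ip l T = c := by
  have hτ := hN.pos
  have hT0 : T ≠ 0 := by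
    rintro rfl
    rw [hN.zero] at hT
    linarith
  have hTT : T.1 * T.1 + T.2 * T.2 ≠ 0 := by
    intro h
    apply hT0
    have h1 : T.1 = 0 := by nlinarith [mul_self_nonneg T.1, mul_self_nonneg T.2]
    have h2 : T.2 = 0 := by nlinarith [mul_self_nonneg T.1, mul_self_nonneg T.2]
    ext
    · exact h1
    · exact h2
  obtain ⟨α₀, h0⟩ := exists_min hN hT hc
  obtain ⟨α₁, h1⟩ := exists_min hN hT (c := -c) (by rwa [abs_neg])
  set U : ℝ := N (rot T + α₀ • T) - c * α₀ with hU
  set V : ℝ := N (rot T + α₁ • T) - (-c) * α₁ with hV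
  have hUV : 0 < U + V := by
    have h2 : |α₀ - α₁| * τ ≤ N (rot T + α₀ • T) + N (rot T + α₁ • T) := by
      have h3 := hN.sub_le (rot T + α₀ • T) (rot T + α₁ • T)
      have e : rot T + α₀ • T - (rot T + α₁ • T) = (α₀ - α₁) • T := by module
      rw [e, hN.smul, hT] at h3
      exact h3
    by_cases h : α₀ = α₁
    · have h4 : rot T + α₁ • T ≠ 0 := by
        intro h5
        have h6 : ip (rot T) (rot T + α₁ • T) = 0 := by rw [h5]; unfold ip; simp
        have h7 : ip (rot T) (rot T + α₁ • T) = T.1 * T.1 + T.2 * T.2 := by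
          rw [ip_add, ip_smul]; unfold ip rot; simp only; ring
        exact hTT (h7 ▸ h6)
      have h5 := hN.pos_of_ne h4
      rw [hU, hV, h]
      linarith
    · have h4 : 0 < |α₀ - α₁| := abs_pos.mpr (sub_ne_zero.mpr h)
      have h5 : c * (α₀ - α₁) ≤ |c| * |α₀ - α₁| := by
        rw [← abs_mul]; exact le_abs_self _
      rw [hU, hV]
      nlinarith
  -- functional with coordinates c, d
  obtain ⟨q, hq⟩ : ∃ q : ℝ, q = T.1 * T.1 + T.2 * T.2 := ⟨_, rfl⟩
  have hq0 : q ≠ 0 := by rw [hq]; exact hTT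
  set F : ℝ → ℝ × ℝ := fun d => (1 / q) • (c • T + d • rot T) with hF
  have hFT : ∀ d, ip (F d) T = c := by
    intro d
    rw [hF]
    unfold ip rot
    simp only [Prod.smul_fst, Prod.smul_snd, Prod.fst_add, Prod.snd_add, smul_eq_mul]
    field_simp
    rw [hq]
    ring
  have hFR : ∀ d, ip (F d) (rot T) = d := by
    intro d
    rw [hF]
    unfold ip rot
    simp only [Prod.smul_fst, Prod.smul_snd, Prod.fst_add, Prod.snd_add, smul_eq_mul]
    field_simp
    rw [hq]
    ring
  have hFl : ∀ l : ℝ × ℝ, ip l T = c → l = F (ip l (rot T)) := by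
    intro l hl
    rw [hF, ← hl]
    unfold ip rot
    ext
    · simp only [Prod.smul_fst, Prod.fst_add, smul_eq_mul]
      field_simp
      rw [hq]
      ring
    · simp only [Prod.smul_snd, Prod.snd_add, smul_eq_mul]
      field_simp
      rw [hq]
      ring
  have hle : ∀ d, d ≤ U → -d ≤ V → ∀ x, ip (F d) x ≤ N x := by
    intro d hd1 hd2 x
    obtain ⟨α, β, rfl⟩ := decomp hT0 x
    rw [ip_add, ip_smul, ip_smul, hFT, hFR]
    rcases lt_trichotomy β 0 with hβ | hβ | hβ
    · have e : β • rot T + α • T = β • (rot T + (α / β) • T) := by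
        rw [smul_add, smul_smul, mul_div_cancel₀ _ hβ.ne]
      rw [e, hN.smul, abs_of_neg hβ]
      have h2 := h1 (α / β)
      have e2 : α = β * (α / β) := (mul_div_cancel₀ _ hβ.ne).symm
      have h3 : -d ≤ N (rot T + (α / β) • T) - (-c) * (α / β) := hd2.trans h2
      have h4 : (-β) * (-d) ≤ (-β) * (N (rot T + (α / β) • T) - (-c) * (α / β)) :=
        mul_le_mul_of_nonneg_left h3 (by linarith)
      have h5 : α * c = β * (α / β) * c := by rw [← e2]
      rw [h5]
      linarith
    · subst hβ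
      rw [zero_mul, zero_add, zero_smul, zero_add, hN.smul, hT]
      have h2 : α * c ≤ |α| * |c| := by rw [← abs_mul]; exact le_abs_self _
      nlinarith [abs_nonneg α]
    · have e : β • rot T + α • T = β • (rot T + (α / β) • T) := by
        rw [smul_add, smul_smul, mul_div_cancel₀ _ hβ.ne']
      rw [e, hN.smul, abs_of_pos hβ]
      have h2 := h0 (α / β)
      have e2 : α = β * (α / β) := (mul_div_cancel₀ _ hβ.ne').symm
      have h3 : d ≤ N (rot T + (α / β) • T) - c * (α / β) := hd1.trans h2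
      have h4 : β * d ≤ β * (N (rot T + (α / β) • T) - c * (α / β)) :=
        mul_le_mul_of_nonneg_left h3 hβ.le
      have h5 : α * c = β * (α / β) * c := by rw [← e2]
      rw [h5]
      linarith
  have hne : ∀ α : ℝ, rot T + α • T ≠ 0 := by
    intro α h5
    have h6 : ip (rot T) (rot T + α • T) = 0 := by rw [h5]; unfold ip; simp
    have h7 : ip (rot T) (rot T + α • T) = T.1 * T.1 + T.2 * T.2 := by
      rw [ip_add, ip_smul]; unfold ip rot; simp only; ring
    exact hTT (h7 ▸ h6)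
  refine ⟨{F U, F (-V)}, ?_, ?_⟩
  · rw [Finset.card_pair]
    intro h
    have h2 := congrArg (fun l => ip l (rot T)) h
    simp only [hFR] at h2
    linarith
  · intro l
    rw [Finset.mem_insert, Finset.mem_singleton]
    constructor
    · rintro (rfl | rfl)
      · refine ⟨⟨hle U le_rfl (by linarith), rot T + α₀ • T, hne _, ?_⟩, hFT _⟩
        rw [ip_add, ip_smul, hFT, hFR, hU]
        ring
      · refine ⟨⟨hle (-V) (by linarith) (by linarith), -(rot T + α₁ • T), ?_, ?_⟩, hFT _⟩
        · exact neg_ne_zero.mpr (hne _)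
        · rw [ip_neg, ip_add, ip_smul, hFT, hFR, hN.neg, hV]
          ring
    · rintro ⟨⟨hl1, x, hx0, hx⟩, hlT⟩
      have hl := hFl l hlT
      set d := ip l (rot T) with hd
      have hd1 : d ≤ U := by
        have h2 := hl1 (rot T + α₀ • T)
        rw [ip_add, ip_smul, hlT, ← hd] at h2
        rw [hU]; linarith
      have hd2 : -d ≤ V := by
        have h2 := hl1 (-(rot T + α₁ • T))
        rw [ip_neg, ip_add, ip_smul, hlT, ← hd, hN.neg] at h2
        rw [hV]; linarith
      obtain ⟨α, β, rfl⟩ := decomp hT0 x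
      rw [ip_add, ip_smul, ip_smul, hlT, ← hd] at hx
      rcases lt_trichotomy β 0 with hβ | hβ | hβ
      · right
        have e : β • rot T + α • T = β • (rot T + (α / β) • T) := by
          rw [smul_add, smul_smul, mul_div_cancel₀ _ hβ.ne]
        rw [e, hN.smul, abs_of_neg hβ] at hx
        have h2 := h1 (α / β)
        have e2 : α = β * (α / β) := (mul_div_cancel₀ _ hβ.ne).symm
        have h5 : α * c = β * (α / β) * c := by rw [← e2]
        rw [h5] at hx
        have h6 : (-β) * (-d) = (-β) * (N (rot T + (α / β) • T) - (-c) * (α / β)) := by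
          linarith
        have h7 := mul_left_cancel₀ (by linarith : -β ≠ 0) h6
        have h8 : d = -V := by linarith
        rw [hl, h8]
      · exfalso
        subst hβ
        rw [zero_mul, zero_add, zero_smul, zero_add, hN.smul, hT] at hx
        have hα : α ≠ 0 := by
          rintro rfl
          apply hx0
          simp
        have h2 : α * c ≤ |α| * |c| := by rw [← abs_mul]; exact le_abs_self _
        have h3 : 0 < |α| := abs_pos.mpr hα
        nlinarith
      · left
        have e : β • rot T + α • T = β • (rot T + (α / β) • T) := by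
          rw [smul_add, smul_smul, mul_div_cancel₀ _ hβ.ne']
        rw [e, hN.smul, abs_of_pos hβ] at hx
        have h2 := h0 (α / β)
        have e2 : α = β * (α / β) := (mul_div_cancel₀ _ hβ.ne').symm
        have h5 : α * c = β * (α / β) * c := by rw [← e2]
        rw [h5] at hx
        have h6 : β * d = β * (N (rot T + (α / β) • T) - c * (α / β)) := by
          linarith
        have h7 := mul_left_cancel₀ hβ.ne' h6
        have h8 : d = U := by linarith
        rw [hl, h8]

end Pool.Agent.AGeo
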