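/-
MP_69f220_al (S01786).  The group `K = ℤ² ⋊ C₄`, its cyclic subgroups `⟨w⟩`, `⟨u⟩`
(`w = (2,2)`, `u = (3,0)`) and the HNN extension `G = ⟨K, t | t w t⁻¹ = u⟩`.
-/
import Mathlib

namespace Pool.Agent.AGeo

/-- cosine of `a` quarter turns -/
def cs (a : ZMod 4) : ℤ := if a = 0 then 1 else if a = 2 then -1 else 0
/-- sine of `a` quarter turns -/
def sn (a : ZMod 4) : ℤ := if a = 1 then 1 else if a = 3 then -1 else 0

theorem cs_zero : cs 0 = 1 := rfl
theorem sn_zero : sn 0 = 0 := rfl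
theorem cs_add (a b : ZMod 4) : cs (a + b) = cs a * cs b - sn a * sn b := by
  revert a b; decide
theorem sn_add (a b : ZMod 4) : sn (a + b) = sn a * cs b + cs a * sn b := by
  revert a b; decide
theorem cs_sn (a : ZMod 4) :
    (cs a = 1 ∧ sn a = 0) ∨ (cs a = 0 ∧ sn a = 1) ∨ (cs a = -1 ∧ sn a = 0) ∨
      (cs a = 0 ∧ sn a = -1) := by
  revert a; decide

/-- The group `K = ℤ² ⋊ C₄`: translation part `(x, y)`, rotation by `a` quarter turns. -/
@[ext] structure K where
  x : ℤ
  y : ℤ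
  a : ZMod 4
deriving DecidableEq

namespace K

instance : Mul K := ⟨fun k l =>
  ⟨k.x + (cs k.a * l.x - sn k.a * l.y), k.y + (sn k.a * l.x + cs k.a * l.y), k.a + l.a⟩⟩
instance : One K := ⟨⟨0, 0, 0⟩⟩
instance : Inv K := ⟨fun k =>
  ⟨-(cs (-k.a) * k.x - sn (-k.a) * k.y), -(sn (-k.a) * k.x + cs (-k.a) * k.y), -k.a⟩⟩

@[simp] theorem mul_x (k l : K) : (k * l).x = k.x + (cs k.a * l.x - sn k.a * l.y) := rfl
@[simp] theorem mul_y (k l : K) : (k * l).y = k.y + (sn k.a * l.x + cs k.a * l.y) := rfl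
@[simp] theorem mul_a (k l : K) : (k * l).a = k.a + l.a := rfl
@[simp] theorem one_x : (1 : K).x = 0 := rfl
@[simp] theorem one_y : (1 : K).y = 0 := rfl
@[simp] theorem one_a : (1 : K).a = 0 := rfl
@[simp] theorem inv_x (k : K) : (k⁻¹).x = -(cs (-k.a) * k.x - sn (-k.a) * k.y) := rfl
@[simp] theorem inv_y (k : K) : (k⁻¹).y = -(sn (-k.a) * k.x + cs (-k.a) * k.y) := rfl
@[simp] theorem inv_a (k : K) : (k⁻¹).a = -k.a := rfl

instance : Group K := Group.ofLeftAxioms
  (by
    intro k l m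
    ext
    · simp only [mul_x, mul_y, mul_a, cs_add, sn_add]; ring
    · simp only [mul_x, mul_y, mul_a, cs_add, sn_add]; ring
    · simp only [mul_a]; ring)
  (by intro k; ext <;> simp [cs_zero, sn_zero])
  (by intro k; ext <;> simp)

end K

/-- Translation by `(x, y)`. -/
def tr (x y : ℤ) : K := ⟨x, y, 0⟩

@[simp] theorem tr_x (x y : ℤ) : (tr x y).x = x := rfl
@[simp] theorem tr_y (x y : ℤ) : (tr x y).y = y := rfl
@[simp] theorem tr_a (x y : ℤ) : (tr x y).a = 0 := rfl

theorem tr_mul (x y x' y' : ℤ) : tr x y * tr x' y' = tr (x + x') (y + y') := by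
  ext <;> simp [cs_zero, sn_zero]

/-- `wp n = w ^ n`, `w = (2, 2)`. -/
def wHom : Multiplicative ℤ →* K where
  toFun n := tr (2 * n.toAdd) (2 * n.toAdd)
  map_one' := rfl
  map_mul' m n := by rw [tr_mul]; congr 1 <;> simp <;> ring

/-- `up n = u ^ n`, `u = (3, 0)`. -/
def uHom : Multiplicative ℤ →* K where
  toFun n := tr (3 * n.toAdd) 0
  map_one' := rfl
  map_mul' m n := by rw [tr_mul]; congr 1; simp; ring

/-- `w ^ n` -/
def wp (n : ℤ) : K := tr (2 * n) (2 * n)
/-- `u ^ n` -/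
def up (n : ℤ) : K := tr (3 * n) 0

theorem wHom_apply (n : Multiplicative ℤ) : wHom n = wp n.toAdd := rfl
theorem uHom_apply (n : Multiplicative ℤ) : uHom n = up n.toAdd := rfl

theorem wHom_injective : Function.Injective wHom := by
  intro m n h
  have := congrArg K.x h
  simp only [wHom_apply, wp, tr_x] at this
  exact Multiplicative.toAdd.injective (by omega)

theorem uHom_injective : Function.Injective uHom := by
  intro m n h
  have := congrArg K.x h
  simp only [uHom_apply, up, tr_x] at this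
  exact Multiplicative.toAdd.injective (by omega)

/-- The subgroup `⟨w⟩`. -/
def SA : Subgroup K := wHom.range
/-- The subgroup `⟨u⟩`. -/
def SB : Subgroup K := uHom.range

theorem mem_SA {k : K} : k ∈ SA ↔ ∃ n : ℤ, k = wp n := by
  constructor
  · rintro ⟨n, rfl⟩; exact ⟨n.toAdd, rfl⟩
  · rintro ⟨n, rfl⟩; exact ⟨Multiplicative.ofAdd n, rfl⟩

theorem mem_SB {k : K} : k ∈ SB ↔ ∃ n : ℤ, k = up n := by
  constructor
  · rintro ⟨n, rfl⟩; exact ⟨n.toAdd, rfl⟩
  · rintro ⟨n, rfl⟩; exact ⟨Multiplicative.ofAdd n, rfl⟩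

/-- `n ↦ w ^ n` as an isomorphism -/
noncomputable def wEquiv : Multiplicative ℤ ≃* SA := MonoidHom.ofInjective wHom_injective
/-- `n ↦ u ^ n` as an isomorphism -/
noncomputable def uEquiv : Multiplicative ℤ ≃* SB := MonoidHom.ofInjective uHom_injective

/-- The isomorphism `w ^ n ↦ u ^ n`. -/
noncomputable def phi : SA ≃* SB := wEquiv.symm.trans uEquiv

theorem phi_wp (n : ℤ) (h : wp n ∈ SA) : ((phi ⟨wp n, h⟩ : SB) : K) = up n := by
  have h1 : (⟨wp n, h⟩ : SA) = wEquiv (Multiplicative.ofAdd n) := Subtype.ext rfl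
  rw [h1, phi, MulEquiv.trans_apply, MulEquiv.symm_apply_apply]
  rfl

/-- The group of the problem: `⟨K, t | t w t⁻¹ = u⟩`. -/
abbrev G : Type := HNNExtension K SA SB phi

/-- the stable letter -/
noncomputable abbrev tt : G := HNNExtension.t
/-- the embedding of `K` -/
noncomputable abbrev ofK : K →* G := HNNExtension.of

theorem tt_mul_wp (n : ℤ) : tt * ofK (wp n) = ofK (up n) * tt := by
  have h : wp n ∈ SA := mem_SA.2 ⟨n, rfl⟩
  have := HNNExtension.t_mul_of (φ := phi) (⟨wp n, h⟩ : SA)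
  rw [phi_wp] at this
  exact this

/-- Entry direction: after a letter `t ^ e` one enters along `ent e` (`w` if `e = 1`, else `u`).
The exit direction before a letter `t ^ e` is `ent (-e)`. -/
def ent (e : ℤˣ) (n : ℤ) : K := if e = 1 then wp n else up n

@[simp] theorem ent_one (n : ℤ) : ent 1 n = wp n := rfl
@[simp] theorem ent_neg_one (n : ℤ) : ent (-1) n = up n := rfl

theorem ent_add (e : ℤˣ) (m n : ℤ) : ent e m * ent e n = ent e (m + n) := by
  rcases Int.units_eq_one_or e with rfl | rfl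
  · simp only [ent_one, wp, tr_mul]; congr 1 <;> ring
  · simp only [ent_neg_one, up, tr_mul]; congr 1; ring

theorem ent_zero (e : ℤˣ) : ent e 0 = 1 := by
  rcases Int.units_eq_one_or e with rfl | rfl <;> rfl

theorem ent_inv (e : ℤˣ) (n : ℤ) : (ent e n)⁻¹ = ent e (-n) := by
  rw [inv_eq_iff_mul_eq_one, ent_add, add_neg_cancel, ent_zero]

theorem t_pow_mul_ent (e : ℤˣ) (n : ℤ) :
    tt ^ (e : ℤ) * ofK (ent e n) = ofK (ent (-e) n) * tt ^ (e : ℤ) := by
  rcases Int.units_eq_one_or e with rfl | rfl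
  · simpa using tt_mul_wp n
  · have h := tt_mul_wp n
    simp only [Units.val_neg, Units.val_one, zpow_neg, zpow_one, ent_neg_one, neg_neg, ent_one]
    rw [inv_mul_eq_iff_eq_mul, ← mul_assoc, h, mul_assoc, mul_inv_cancel, mul_one]

theorem toSubgroup_mem (e : ℤˣ) (k : K) :
    k ∈ HNNExtension.toSubgroup SA SB e ↔ ∃ n : ℤ, k = ent e n := by
  rcases Int.units_eq_one_or e with rfl | rfl
  · exact mem_SA
  · exact mem_SB

theorem ofK_injective : Function.Injective ofK := HNNExtension.of_injective phi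

end Pool.Agent.AGeo
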