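import Mathlib

/-!
Stable norm of a length function on the integer plane.
-/

set_option autoImplicit false

namespace Pool.Agent.AGeo

/-- l1 norm on the real plane -/
noncomputable def n1 (x : ℝ × ℝ) : ℝ := |x.1| + |x.2|

/-- inclusion of the integer plane -/
noncomputable def cst (v : ℤ × ℤ) : ℝ × ℝ := ((v.1 : ℝ), (v.2 : ℝ))

lemma n1_nonneg (x : ℝ × ℝ) : 0 ≤ n1 x := by unfold n1; positivity

lemma n1_add (x y : ℝ × ℝ) : n1 (x + y) ≤ n1 x + n1 y := by
  unfold n1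
  simp only [Prod.fst_add, Prod.snd_add]
  linarith [abs_add_le x.1 y.1, abs_add_le x.2 y.2]

lemma n1_smul (c : ℝ) (x : ℝ × ℝ) : n1 (c • x) = |c| * n1 x := by
  unfold n1
  simp only [Prod.smul_fst, Prod.smul_snd, smul_eq_mul, abs_mul]
  ring

lemma n1_neg (x : ℝ × ℝ) : n1 (-x) = n1 x := by
  unfold n1
  simp

lemma n1_zero : n1 0 = 0 := by unfold n1; simp

lemma n1_eq_zero {x : ℝ × ℝ} (h : n1 x = 0) : x = 0 := by
  unfold n1 at h
  have h1 : |x.1| = 0 := by linarith [abs_nonneg x.1, abs_nonneg x.2]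
  have h2 : |x.2| = 0 := by linarith [abs_nonneg x.1, abs_nonneg x.2]
  ext
  · simpa using h1
  · simpa using h2

lemma n1_sub_comm (x y : ℝ × ℝ) : n1 (x - y) = n1 (y - x) := by
  rw [← n1_neg (x - y)]; congr 1; abel

lemma cst_add (v w : ℤ × ℤ) : cst (v + w) = cst v + cst w := by
  unfold cst; ext <;> simp

lemma cst_neg (v : ℤ × ℤ) : cst (-v) = -cst v := by
  unfold cst; ext <;> simp

lemma cst_sub (v w : ℤ × ℤ) : cst (v - w) = cst v - cst w := by
  unfold cst; ext <;> simp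

lemma cst_zero : cst 0 = 0 := by
  unfold cst; ext <;> simp

lemma cst_zsmul (n : ℤ) (v : ℤ × ℤ) : cst (n • v) = (n : ℝ) • cst v := by
  unfold cst; ext <;> simp

lemma cst_nsmul (n : ℕ) (v : ℤ × ℤ) : cst (n • v) = (n : ℝ) • cst v := by
  unfold cst; ext <;> simp

/-- a length function on the integer plane -/
structure LenZ (p : ℤ × ℤ → ℝ) : Prop where
  zero : p 0 = 0
  add : ∀ v w, p (v + w) ≤ p v + p w
  neg : ∀ v, p (-v) = p v

namespace LenZ

variable {p : ℤ × ℤ → ℝ} (hp : LenZ p)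

include hp

lemma nonneg (v : ℤ × ℤ) : 0 ≤ p v := by
  have h := hp.add v (-v)
  rw [hp.neg, add_neg_cancel, hp.zero] at h
  linarith

lemma nsmul (n : ℕ) (v : ℤ × ℤ) : p (n • v) ≤ n * p v := by
  induction n with
  | zero => simp [hp.zero]
  | succ n ih =>
    rw [succ_nsmul]
    have h := hp.add (n • v) v
    push_cast
    linarith

lemma zsmul (n : ℤ) (v : ℤ × ℤ) : p (n • v) ≤ |(n : ℝ)| * p v := by
  obtain ⟨k, rfl | rfl⟩ := n.eq_nat_or_neg
  · have h := hp.nsmul k v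
    rw [natCast_zsmul]
    simpa using h
  · have h := hp.nsmul k v
    rw [neg_zsmul, natCast_zsmul, hp.neg]
    simpa using h

/-- bound by the l1 norm -/
lemma le_n1 (v : ℤ × ℤ) : p v ≤ (p (1, 0) + p (0, 1)) * n1 (cst v) := by
  have h0 : v = v.1 • ((1 : ℤ), (0 : ℤ)) + v.2 • ((0 : ℤ), (1 : ℤ)) := by
    ext <;> simp
  have h1 := hp.add (v.1 • ((1 : ℤ), (0 : ℤ))) (v.2 • ((0 : ℤ), (1 : ℤ)))
  rw [← h0] at h1
  have h2 := hp.zsmul v.1 (1, 0)
  have h3 := hp.zsmul v.2 (0, 1)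
  have h4 := hp.nonneg (1, 0)
  have h5 := hp.nonneg (0, 1)
  unfold n1 cst
  simp only
  nlinarith [abs_nonneg (v.1 : ℝ), abs_nonneg (v.2 : ℝ), mul_nonneg (abs_nonneg (v.1 : ℝ)) h5,
    mul_nonneg (abs_nonneg (v.2 : ℝ)) h4]

end LenZ

/-- the Lipschitz constant -/
noncomputable def Lc (p : ℤ × ℤ → ℝ) : ℝ := p (1, 0) + p (0, 1)

/-- stable norm -/
noncomputable def stab (p : ℤ × ℤ → ℝ) (x : ℝ × ℝ) : ℝ :=
  sInf {r : ℝ | ∃ k : ℕ, 0 < k ∧ ∃ v : ℤ × ℤ,
    r = (p v + Lc p * n1 ((k : ℝ) • x - cst v)) / k}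

section

variable {p : ℤ × ℤ → ℝ} (hp : LenZ p)

include hp

lemma Lc_nonneg : 0 ≤ Lc p := add_nonneg (hp.nonneg _) (hp.nonneg _)

lemma stab_bdd (x : ℝ × ℝ) : BddBelow {r : ℝ | ∃ k : ℕ, 0 < k ∧ ∃ v : ℤ × ℤ,
    r = (p v + Lc p * n1 ((k : ℝ) • x - cst v)) / k} := by
  refine ⟨0, ?_⟩
  rintro r ⟨k, hk, v, rfl⟩
  have h1 := hp.nonneg v
  have h2 := Lc_nonneg hp
  have h3 := n1_nonneg ((k : ℝ) • x - cst v)
  positivity

lemma stab_le (x : ℝ × ℝ) {k : ℕ} (hk : 0 < k) (v : ℤ × ℤ) :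
    stab p x ≤ (p v + Lc p * n1 ((k : ℝ) • x - cst v)) / k :=
  csInf_le (stab_bdd hp x) ⟨k, hk, v, rfl⟩

lemma stab_exists (x : ℝ × ℝ) {ε : ℝ} (hε : 0 < ε) : ∃ k : ℕ, 0 < k ∧ ∃ v : ℤ × ℤ,
    (p v + Lc p * n1 ((k : ℝ) • x - cst v)) / k < stab p x + ε := by
  obtain ⟨r, ⟨k, hk, v, rfl⟩, hr⟩ := Real.lt_sInf_add_pos
    (s := {r : ℝ | ∃ k : ℕ, 0 < k ∧ ∃ v : ℤ × ℤ,
      r = (p v + Lc p * n1 ((k : ℝ) • x - cst v)) / k}) ⟨_, 1, one_pos, 0, rfl⟩ hε
  exact ⟨k, hk, v, hr⟩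

lemma stab_nonneg (x : ℝ × ℝ) : 0 ≤ stab p x := by
  refine le_csInf ⟨_, 1, one_pos, 0, rfl⟩ ?_
  rintro r ⟨k, hk, v, rfl⟩
  have h1 := hp.nonneg v
  have h2 := Lc_nonneg hp
  have h3 := n1_nonneg ((k : ℝ) • x - cst v)
  positivity

lemma stab_le_p (v : ℤ × ℤ) : stab p (cst v) ≤ p v := by
  have h := stab_le hp (cst v) one_pos v
  simpa [n1_zero] using h

lemma stab_le_n1 (x : ℝ × ℝ) : stab p x ≤ Lc p * n1 x := by
  have h := stab_le hp x one_pos 0
  simpa [cst_zero, hp.zero] using h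

lemma stab_add (x y : ℝ × ℝ) : stab p (x + y) ≤ stab p x + stab p y := by
  refine le_of_forall_pos_le_add fun ε hε => ?_
  obtain ⟨k, hk, v, hv⟩ := stab_exists hp x (half_pos hε)
  obtain ⟨l, hl, w, hw⟩ := stab_exists hp y (half_pos hε)
  have hk' : (0 : ℝ) < k := by exact_mod_cast hk
  have hl' : (0 : ℝ) < l := by exact_mod_cast hl
  have h := stab_le hp (x + y) (Nat.mul_pos hk hl) (l • v + k • w)
  have h1 : p (l • v + k • w) ≤ l * p v + k * p w :=
    (hp.add _ _).trans (add_le_add (hp.nsmul l v) (hp.nsmul k w))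
  have h2 : (((k * l : ℕ) : ℝ)) • (x + y) - cst (l • v + k • w)
      = (l : ℝ) • ((k : ℝ) • x - cst v) + (k : ℝ) • ((l : ℝ) • y - cst w) := by
    rw [cst_add, cst_nsmul, cst_nsmul]
    push_cast
    module
  have h3 : n1 ((((k * l : ℕ) : ℝ)) • (x + y) - cst (l • v + k • w))
      ≤ l * n1 ((k : ℝ) • x - cst v) + k * n1 ((l : ℝ) • y - cst w) := by
    rw [h2]
    refine (n1_add _ _).trans ?_
    rw [n1_smul, n1_smul, abs_of_pos hk', abs_of_pos hl']
  have hL := Lc_nonneg hp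
  have h4 : (p (l • v + k • w) + Lc p * n1 ((((k * l : ℕ) : ℝ)) • (x + y)
      - cst (l • v + k • w))) / ((k * l : ℕ) : ℝ)
      ≤ (p v + Lc p * n1 ((k : ℝ) • x - cst v)) / k
        + (p w + Lc p * n1 ((l : ℝ) • y - cst w)) / l := by
    rw [div_add_div _ _ hk'.ne' hl'.ne']
    push_cast
    refine div_le_div_of_nonneg_right ?_ (by positivity)
    push_cast at h3
    nlinarith [mul_le_mul_of_nonneg_left h3 hL]
  linarith

lemma stab_neg (x : ℝ × ℝ) : stab p (-x) = stab p x := by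
  have key : ∀ y, stab p (-y) ≤ stab p y := by
    intro y
    refine le_of_forall_pos_le_add fun ε hε => ?_
    obtain ⟨k, hk, v, hv⟩ := stab_exists hp y hε
    have h := stab_le hp (-y) hk (-v)
    have h2 : (k : ℝ) • (-y) - cst (-v) = -((k : ℝ) • y - cst v) := by
      rw [cst_neg]; module
    rw [hp.neg, h2, n1_neg] at h
    linarith
  refine le_antisymm (key x) ?_
  have h := key (-x)
  rwa [neg_neg] at h

lemma stab_lip (x y : ℝ × ℝ) : stab p x ≤ stab p y + Lc p * n1 (x - y) := by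
  have h := stab_add hp y (x - y)
  rw [add_sub_cancel] at h
  linarith [stab_le_n1 hp (x - y)]

lemma stab_nsmul (n : ℕ) (x : ℝ × ℝ) : stab p ((n : ℝ) • x) ≤ n * stab p x := by
  induction n with
  | zero =>
    have := stab_le_n1 hp (((0 : ℕ) : ℝ) • x)
    simp only [Nat.cast_zero, zero_smul, n1_zero, mul_zero, zero_mul] at this ⊢
    exact this
  | succ n ih =>
    have h := stab_add hp ((n : ℝ) • x) x
    have h2 : ((n + 1 : ℕ) : ℝ) • x = (n : ℝ) • x + x := by push_cast; module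
    rw [h2]
    push_cast
    linarith

lemma stab_div (n : ℕ) (hn : 0 < n) (x : ℝ × ℝ) :
    stab p ((1 / (n : ℝ)) • x) ≤ (1 / (n : ℝ)) * stab p x := by
  have hn' : (0 : ℝ) < n := by exact_mod_cast hn
  refine le_of_forall_pos_le_add fun ε hε => ?_
  obtain ⟨k, hk, v, hv⟩ := stab_exists hp x (mul_pos hn' hε)
  have hk' : (0 : ℝ) < k := by exact_mod_cast hk
  have h := stab_le hp ((1 / (n : ℝ)) • x) (Nat.mul_pos hk hn) v
  have h2 : (((k * n : ℕ) : ℝ)) • ((1 / (n : ℝ)) • x) = (k : ℝ) • x := by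
    rw [smul_smul]
    congr 1
    push_cast
    field_simp
  rw [h2] at h
  have h3 : (p v + Lc p * n1 ((k : ℝ) • x - cst v)) / ((k * n : ℕ) : ℝ)
      = (1 / (n : ℝ)) * ((p v + Lc p * n1 ((k : ℝ) • x - cst v)) / k) := by
    push_cast
    field_simp
  rw [h3] at h
  refine h.trans ?_
  have h4 : (1 / (n : ℝ)) * ((p v + Lc p * n1 ((k : ℝ) • x - cst v)) / k)
      ≤ (1 / (n : ℝ)) * (stab p x + n * ε) :=
    mul_le_mul_of_nonneg_left hv.le (by positivity)
  refine h4.trans (le_of_eq ?_)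
  field_simp

lemma stab_smul_le (c : ℝ) (hc : 0 ≤ c) (x : ℝ × ℝ) : stab p (c • x) ≤ c * stab p x := by
  refine le_of_forall_pos_le_add fun ε hε => ?_
  have hL := Lc_nonneg hp
  have hN := stab_nonneg hp x
  have h1 := n1_nonneg x
  set D : ℝ := Lc p * n1 x + stab p x + 1 with hD
  have hDpos : 0 < D := by positivity
  obtain ⟨n, hn⟩ := exists_nat_gt (D / ε)
  have hn0 : (0 : ℝ) < n := lt_trans (by positivity) hn
  have hn0' : 0 < n := by exact_mod_cast hn0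
  set a : ℕ := ⌊c * n⌋₊ with ha
  have ha1 : (a : ℝ) ≤ c * n := Nat.floor_le (by positivity)
  have ha2 : c * n < a + 1 := Nat.lt_floor_add_one _
  have h2 : stab p (((a : ℝ) / n) • x) ≤ ((a : ℝ) / n) * stab p x := by
    have h3 := stab_nsmul hp a ((1 / (n : ℝ)) • x)
    have h4 := stab_div hp n hn0' x
    rw [smul_smul] at h3
    have h5 : (a : ℝ) / n = a * (1 / (n : ℝ)) := by ring
    rw [h5]
    refine h3.trans ?_
    rw [mul_assoc]
    exact mul_le_mul_of_nonneg_left h4 (by positivity)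
  have h6 := stab_lip hp (c • x) (((a : ℝ) / n) • x)
  have h7 : n1 (c • x - ((a : ℝ) / n) • x) = (c - a / n) * n1 x := by
    rw [← sub_smul, n1_smul, abs_of_nonneg]
    have : (a : ℝ) / n ≤ c := by
      rw [div_le_iff₀ hn0]; exact ha1
    linarith
  rw [h7] at h6
  have h8 : c - a / n ≤ 1 / n := by
    have : c ≤ (a + 1) / n := by
      rw [le_div_iff₀ hn0]; exact ha2.le
    rw [add_div] at this
    linarith
  have h9 : (a : ℝ) / n ≤ c := by
    rw [div_le_iff₀ hn0]; exact ha1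
  have h10 : (1 : ℝ) / n * D < ε := by
    rw [div_lt_iff₀ hε] at hn
    rw [one_div, inv_mul_lt_iff₀ hn0]
    linarith
  have h11 : Lc p * ((c - a / n) * n1 x) ≤ Lc p * ((1 / n) * n1 x) := by gcongr
  have h12 : (a : ℝ) / n * stab p x ≤ c * stab p x := by gcongr
  have h13 : Lc p * ((1 / n) * n1 x) ≤ 1 / n * D := by
    rw [hD]
    have : (0 : ℝ) ≤ 1 / n := by positivity
    nlinarith [mul_nonneg this hN]
  linarith

lemma stab_smul (c : ℝ) (x : ℝ × ℝ) : stab p (c • x) = |c| * stab p x := by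
  have key : ∀ c : ℝ, 0 < c → ∀ x, stab p (c • x) = c * stab p x := by
    intro c hc x
    refine le_antisymm (stab_smul_le hp c hc.le x) ?_
    have h := stab_smul_le hp c⁻¹ (inv_nonneg.mpr hc.le) (c • x)
    rw [smul_smul, inv_mul_cancel₀ hc.ne', one_smul] at h
    rw [inv_mul_eq_div, le_div_iff₀ hc] at h
    linarith
  rcases lt_trichotomy c 0 with h | h | h
  · rw [abs_of_neg h, ← key (-c) (by linarith) x, neg_smul, stab_neg hp]
  · subst h
    have h1 := stab_le_n1 hp ((0 : ℝ) • x)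
    have h2 := stab_nonneg hp ((0 : ℝ) • x)
    simp only [zero_smul, n1_zero, mul_zero, abs_zero, zero_mul] at h1 h2 ⊢
    linarith
  · rw [abs_of_pos h, key c h]

lemma stab_zero : stab p 0 = 0 := by
  have h1 := stab_le_n1 hp 0
  have h2 := stab_nonneg hp 0
  rw [n1_zero, mul_zero] at h1
  linarith

end

end Pool.Agent.AGeo
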