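import Pool.Agent.AGeo.Stable

/-!
Stable norm: uniform upper bound, quarter turn, the two directions, positivity.
-/

set_option autoImplicit false

namespace Pool.Agent.AGeo

/-- quarter turn, integer plane -/
def rotZ (v : ℤ × ℤ) : ℤ × ℤ := (-v.2, v.1)

/-- quarter turn, real plane -/
def rot (x : ℝ × ℝ) : ℝ × ℝ := (-x.2, x.1)

lemma cst_rotZ (v : ℤ × ℤ) : cst (rotZ v) = rot (cst v) := by
  unfold cst rotZ rot; ext <;> simp

lemma rot_add (x y : ℝ × ℝ) : rot (x + y) = rot x + rot y := by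
  unfold rot; ext <;> simp; ring

lemma rot_sub (x y : ℝ × ℝ) : rot (x - y) = rot x - rot y := by
  unfold rot; ext <;> simp; ring

lemma rot_smul (c : ℝ) (x : ℝ × ℝ) : rot (c • x) = c • rot x := by
  unfold rot; ext <;> simp

lemma rot_rot (x : ℝ × ℝ) : rot (rot x) = -x := by
  unfold rot; ext <;> simp

lemma rotZ_nsmul (n : ℕ) (v : ℤ × ℤ) : rotZ (n • v) = n • rotZ v := by
  unfold rotZ; ext <;> simp

lemma n1_rot (x : ℝ × ℝ) : n1 (rot x) = n1 x := by
  unfold n1 rot
  simp only [abs_neg]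
  ring

/-- the uniform upper bound -/
theorem stab_unif {p : ℤ × ℤ → ℝ} (hp : LenZ p) {ε : ℝ} (hε : 0 < ε) :
    ∃ C : ℝ, ∀ v : ℤ × ℤ, p v ≤ stab p (cst v) + ε * n1 (cst v) + C := by
  have hL := Lc_nonneg hp
  have hK : IsCompact {x : ℝ × ℝ | n1 x = 1} := by
    refine Metric.isCompact_of_isClosed_isBounded ?_ ?_
    · refine isClosed_eq ?_ continuous_const
      unfold n1
      fun_prop
    · refine (Metric.isBounded_closedBall (x := (0 : ℝ × ℝ)) (r := 1)).subset ?_
      intro x hx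
      simp only [Set.mem_ofPred_eq] at hx
      rw [Metric.mem_closedBall, dist_zero_right, Prod.norm_def, Real.norm_eq_abs,
        Real.norm_eq_abs]
      unfold n1 at hx
      exact max_le (by linarith [abs_nonneg x.2]) (by linarith [abs_nonneg x.1])
  have key : ∃ C : ℝ, ∀ x ∈ {x : ℝ × ℝ | n1 x = 1}, ∀ (v : ℤ × ℤ) (r : ℝ), 0 < r →
      cst v = r • x → p v ≤ stab p (cst v) + ε * r + C := by
    refine hK.induction_on (p := fun S => ∃ C : ℝ, ∀ x ∈ S, ∀ (v : ℤ × ℤ) (r : ℝ), 0 < r →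
      cst v = r • x → p v ≤ stab p (cst v) + ε * r + C) ?_ ?_ ?_ ?_
    · exact ⟨0, fun x hx => absurd hx (Set.notMem_empty x)⟩
    · rintro S T hST ⟨C, hC⟩
      exact ⟨C, fun x hx => hC x (hST hx)⟩
    · rintro S T ⟨C, hC⟩ ⟨D, hD⟩
      refine ⟨max C D, fun x hx v r hr h => ?_⟩
      rcases hx with hx | hx
      · exact (hC x hx v r hr h).trans (by linarith [le_max_left C D])
      · exact (hD x hx v r hr h).trans (by linarith [le_max_right C D])
    · intro x₀ hx₀
      simp only [Set.mem_ofPred_eq] at hx₀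
      obtain ⟨k, hk, w, hw⟩ := stab_exists hp x₀ (by positivity : (0 : ℝ) < ε / 4)
      have hk' : (0 : ℝ) < k := by exact_mod_cast hk
      set D : ℝ := Lc p * n1 ((k : ℝ) • x₀ - cst w) with hD
      have hDn : 0 ≤ D := mul_nonneg hL (n1_nonneg _)
      refine ⟨{x | Lc p * n1 (x - x₀) < ε / 4}, ?_, Lc p * k + 1, ?_⟩
      · refine mem_nhdsWithin_of_mem_nhds ?_
        refine IsOpen.mem_nhds ?_ ?_
        · refine isOpen_lt ?_ continuous_const
          unfold n1
          fun_prop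
        · simp only [Set.mem_ofPred_eq, sub_self, n1_zero, mul_zero]
          positivity
      · intro x hx v r hr hv
        simp only [Set.mem_ofPred_eq] at hx
        set n : ℕ := ⌊r / k⌋₊ with hn
        have hn1 : (n : ℝ) ≤ r / k := Nat.floor_le (by positivity)
        have hn2 : r / k < n + 1 := Nat.lt_floor_add_one _
        have hn1' : (n : ℝ) * k ≤ r := by rwa [le_div_iff₀ hk'] at hn1
        have hn2' : r < (n + 1) * k := by rwa [div_lt_iff₀ hk'] at hn2
        have h1 : p v ≤ n * p w + Lc p * n1 (cst v - (n : ℝ) • cst w) := by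
          have h2 := hp.add (n • w) (v - n • w)
          rw [add_sub_cancel] at h2
          have h3 := hp.nsmul n w
          have h4 := hp.le_n1 (v - n • w)
          rw [cst_sub, cst_nsmul] at h4
          unfold Lc
          linarith
        have h5 : cst v - (n : ℝ) • cst w
            = r • (x - x₀) + ((r - n * k) • x₀ + (n : ℝ) • ((k : ℝ) • x₀ - cst w)) := by
          rw [hv]; module
        have h6 : n1 (cst v - (n : ℝ) • cst w)
            ≤ r * n1 (x - x₀) + (k + n * n1 ((k : ℝ) • x₀ - cst w)) := by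
          rw [h5]
          refine (n1_add _ _).trans (add_le_add ?_ ((n1_add _ _).trans (add_le_add ?_ ?_)))
          · rw [n1_smul, abs_of_pos hr]
          · rw [n1_smul, hx₀, mul_one, abs_of_nonneg (by linarith)]
            linarith
          · rw [n1_smul, abs_of_nonneg (by positivity)]
        have h7 : Lc p * n1 (cst v - (n : ℝ) • cst w)
            ≤ r * (ε / 4) + Lc p * k + n * D := by
          have h8 := mul_le_mul_of_nonneg_left h6 hL
          have h9 : r * (Lc p * n1 (x - x₀)) ≤ r * (ε / 4) :=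
            mul_le_mul_of_nonneg_left hx.le hr.le
          rw [hD]
          nlinarith
        have h10 : (n : ℝ) * (p w + D) ≤ r * (stab p x₀ + ε / 4) := by
          rw [div_lt_iff₀ hk'] at hw
          have h11 : (n : ℝ) * (p w + D) ≤ n * ((stab p x₀ + ε / 4) * k) :=
            mul_le_mul_of_nonneg_left hw.le (by positivity)
          have h12 := stab_nonneg hp x₀
          have h13 : (n : ℝ) * ((stab p x₀ + ε / 4) * k) = (n * k) * (stab p x₀ + ε / 4) := by
            ring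
          rw [h13] at h11
          exact h11.trans (mul_le_mul_of_nonneg_right hn1' (by positivity))
        have h14 := stab_lip hp x₀ x
        rw [n1_sub_comm] at h14
        have h15 : stab p (cst v) = r * stab p x := by
          rw [hv, stab_smul hp, abs_of_pos hr]
        rw [h15]
        have h16 : r * stab p x₀ ≤ r * (stab p x + ε / 4) :=
          mul_le_mul_of_nonneg_left (by linarith) hr.le
        nlinarith
  obtain ⟨C, hC⟩ := key
  refine ⟨max C 0, fun v => ?_⟩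
  by_cases hv : n1 (cst v) = 0
  · have h0 : cst v = 0 := n1_eq_zero hv
    have h1 := hp.le_n1 v
    rw [hv, mul_zero] at h1
    have h2 := stab_nonneg hp (cst v)
    rw [hv, mul_zero]
    linarith [le_max_right C 0]
  · have hpos : 0 < n1 (cst v) := lt_of_le_of_ne (n1_nonneg _) (Ne.symm hv)
    have h := hC ((n1 (cst v))⁻¹ • cst v) ?_ v (n1 (cst v)) hpos ?_
    · linarith [le_max_left C 0]
    · simp only [Set.mem_ofPred_eq]
      rw [n1_smul, abs_of_pos (inv_pos.mpr hpos), inv_mul_cancel₀ hv]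
    · rw [smul_smul, mul_inv_cancel₀ hv, one_smul]

section

variable {p : ℤ × ℤ → ℝ} (hp : LenZ p)

include hp

lemma stab_le_div (v : ℤ × ℤ) {n : ℕ} (hn : 0 < n) : stab p (cst v) ≤ p (n • v) / n := by
  have h := stab_le hp (cst v) hn (n • v)
  rwa [cst_nsmul, sub_self, n1_zero, mul_zero, add_zero] at h

lemma p_div_le (v : ℤ × ℤ) {ε : ℝ} (hε : 0 < ε) : ∃ n₀ : ℕ, ∀ n : ℕ, n₀ ≤ n → 0 < n →
    p (n • v) / n ≤ stab p (cst v) + ε := by
  have h1 := n1_nonneg (cst v)
  obtain ⟨C, hC⟩ := stab_unif hp (by positivity : (0 : ℝ) < ε / 2 / (n1 (cst v) + 1))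
  obtain ⟨n₀, hn₀⟩ := exists_nat_gt (max C 0 / (ε / 2))
  refine ⟨n₀, fun n hn hn0 => ?_⟩
  have hn' : (0 : ℝ) < n := by exact_mod_cast hn0
  have h2 := hC (n • v)
  rw [cst_nsmul, n1_smul, stab_smul hp, abs_of_pos hn'] at h2
  rw [div_le_iff₀ hn']
  have h3 : ε / 2 / (n1 (cst v) + 1) * (n * n1 (cst v)) ≤ n * (ε / 2) := by
    rw [div_mul_eq_mul_div, div_le_iff₀ (by positivity)]
    nlinarith [mul_pos hn' hε]
  have h4 : C ≤ n * (ε / 2) := by
    rw [div_lt_iff₀ (by positivity)] at hn₀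
    have h5 : (n₀ : ℝ) ≤ n := by exact_mod_cast hn
    have h6 : (n₀ : ℝ) * (ε / 2) ≤ n * (ε / 2) := by gcongr
    linarith [le_max_left C 0]
  nlinarith

lemma stab_rot_le {C₀ : ℝ} (hρ : ∀ v, p (rotZ v) ≤ p v + C₀) (x : ℝ × ℝ) :
    stab p (rot x) ≤ stab p x := by
  refine le_of_forall_pos_le_add fun ε hε => ?_
  obtain ⟨k, hk, v, hv⟩ := stab_exists hp x (half_pos hε)
  have hk' : (0 : ℝ) < k := by exact_mod_cast hk
  obtain ⟨n, hn⟩ := exists_nat_gt (max C₀ 0 / (ε / 2))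
  have hn0 : (0 : ℝ) < n := lt_of_le_of_lt (by positivity) hn
  have hn0' : 0 < n := by exact_mod_cast hn0
  have h := stab_le hp (rot x) (Nat.mul_pos hk hn0') (rotZ (n • v))
  have h1 : (((k * n : ℕ) : ℝ)) • rot x - cst (rotZ (n • v))
      = (n : ℝ) • rot ((k : ℝ) • x - cst v) := by
    rw [cst_rotZ, cst_nsmul, rot_smul, rot_sub, rot_smul]
    push_cast
    module
  rw [h1, n1_smul, n1_rot, abs_of_pos hn0] at h
  refine h.trans ?_
  have h2 := hρ (n • v)
  have h3 := hp.nsmul n v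
  rw [div_le_iff₀ (by positivity)]
  rw [div_lt_iff₀ hk'] at hv
  have h4 : C₀ ≤ n * (ε / 2) := by
    rw [div_lt_iff₀ (by positivity)] at hn
    linarith [le_max_left C₀ 0]
  have h5 : (n : ℝ) * (p v + Lc p * n1 ((k : ℝ) • x - cst v))
      ≤ n * ((stab p x + ε / 2) * k) := mul_le_mul_of_nonneg_left hv.le hn0.le
  have h6 : (1 : ℝ) ≤ k := by exact_mod_cast hk
  have h7 : (n : ℝ) * (ε / 2) ≤ k * n * (ε / 2) := by
    have : (0 : ℝ) ≤ n * (ε / 2) := by positivity
    nlinarith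
  push_cast
  nlinarith

lemma stab_rot {C₀ : ℝ} (hρ : ∀ v, p (rotZ v) ≤ p v + C₀) (x : ℝ × ℝ) :
    stab p (rot x) = stab p x := by
  refine le_antisymm (stab_rot_le hp hρ x) ?_
  have h1 := stab_rot_le hp hρ (rot x)
  rw [rot_rot, stab_neg hp] at h1
  exact h1

lemma stab_le_of_close {C₀ : ℝ} (v w : ℤ × ℤ) (h : ∀ n : ℕ, p (n • v) ≤ p (n • w) + C₀) :
    stab p (cst v) ≤ stab p (cst w) := by
  refine le_of_forall_pos_le_add fun ε hε => ?_
  obtain ⟨n₀, hn₀⟩ := p_div_le hp w (half_pos hε)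
  obtain ⟨n₁, hn₁⟩ := exists_nat_gt (max C₀ 0 / (ε / 2))
  have hn1 : (0 : ℝ) < n₁ := lt_of_le_of_lt (by positivity) hn₁
  have hn1' : 0 < n₁ := by exact_mod_cast hn1
  set n := max n₀ n₁ with hn
  have hn0 : 0 < n := lt_of_lt_of_le hn1' (le_max_right _ _)
  have hn' : (0 : ℝ) < n := by exact_mod_cast hn0
  have h1 := stab_le_div hp v hn0
  have h2 := hn₀ n (le_max_left _ _) hn0
  have h3 := h n
  have h4 : C₀ / n ≤ ε / 2 := by
    rw [div_le_iff₀ hn']
    rw [div_lt_iff₀ (by positivity)] at hn₁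
    have h5 : (n₁ : ℝ) ≤ n := by exact_mod_cast le_max_right n₀ n₁
    have h6 : (n₁ : ℝ) * (ε / 2) ≤ n * (ε / 2) := by gcongr
    linarith [le_max_left C₀ 0]
  have h5 : p (n • v) / n ≤ p (n • w) / n + C₀ / n := by
    rw [← add_div]
    gcongr
  linarith

lemma stab_ge_of_low {c₀ : ℝ} (w : ℤ × ℤ) (h : ∀ n : ℕ, c₀ * n ≤ p (n • w)) :
    c₀ ≤ stab p (cst w) := by
  refine le_of_forall_pos_le_add fun ε hε => ?_
  obtain ⟨n₀, hn₀⟩ := p_div_le hp w hε
  have h1 := hn₀ (n₀ + 1) (Nat.le_succ _) (Nat.succ_pos _)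
  have h2 : c₀ ≤ p ((n₀ + 1) • w) / ((n₀ + 1 : ℕ) : ℝ) := by
    rw [le_div_iff₀ (by positivity)]
    exact h (n₀ + 1)
  exact h2.trans h1

end

/-- The properties of the stable norm used below. -/
structure Nrm (N : ℝ × ℝ → ℝ) (τ : ℝ) : Prop where
  add : ∀ x y, N (x + y) ≤ N x + N y
  smul : ∀ (c : ℝ) x, N (c • x) = |c| * N x
  rot : ∀ x, N (rot x) = N x
  u : N (3, 0) = τ
  w : N (2, 2) = τ
  pos : 0 < τ

theorem stab_nrm {p : ℤ × ℤ → ℝ} (hp : LenZ p) {C₀ c₀ : ℝ} (hρ : ∀ v, p (rotZ v) ≤ p v + C₀)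
    (huw : ∀ n : ℕ, |p (n • (3, 0)) - p (n • (2, 2))| ≤ C₀) (hc₀ : 0 < c₀)
    (hlow : ∀ n : ℕ, c₀ * n ≤ p (n • (2, 2))) :
    Nrm (stab p) (stab p (2, 2)) := by
  have e1 : cst (3, 0) = ((3 : ℝ), (0 : ℝ)) := by unfold cst; simp
  have e2 : cst (2, 2) = ((2 : ℝ), (2 : ℝ)) := by unfold cst; simp
  refine ⟨stab_add hp, stab_smul hp, stab_rot hp hρ, ?_, rfl, ?_⟩
  · rw [← e1, ← e2]
    refine le_antisymm (stab_le_of_close hp (C₀ := C₀) _ _ fun n => ?_)
      (stab_le_of_close hp (C₀ := C₀) _ _ fun n => ?_)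
    · have := abs_le.mp (huw n)
      linarith [this.2]
    · have := abs_le.mp (huw n)
      linarith [this.1]
  · rw [← e2]
    exact lt_of_lt_of_le hc₀ (stab_ge_of_low hp _ hlow)

end Pool.Agent.AGeo
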