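import Pool.Agent.AGeo.States

/-!
The start plane: a point where the norm is differentiable along the first direction.
-/

set_option autoImplicit false

namespace Pool.Agent.AGeo

/-- start data -/
theorem exists_start {N : ℝ × ℝ → ℝ} {τ : ℝ} (hN : Nrm N τ) :
    ∃ (V l : ℝ × ℝ) (c : ℝ), |c| < τ ∧ (∀ x, ip l x ≤ N x) ∧ ip l (TR true) = c ∧
      ∀ δ : ℝ, 0 < δ → ∃ r : ℝ, 0 < r ∧ ∀ h : ℝ, |h| ≤ r →
        N (V + h • TR true) ≤ ip l (V + h • TR true) + δ * |h| := by
  have hτ := hN.pos
  set f : ℝ → ℝ := fun x => N (rot (TR true) + x • TR true) with hf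
  have hlipf : ∀ x y, |f x - f y| ≤ τ * |x - y| := by
    have h1 : ∀ x y, f x ≤ f y + τ * |x - y| := by
      intro x y
      have h2 := hN.add (rot (TR true) + y • TR true) ((x - y) • TR true)
      have e : rot (TR true) + y • TR true + (x - y) • TR true
          = rot (TR true) + x • TR true := by module
      rw [e, hN.smul, N_TR hN] at h2
      rw [hf]; simp only; linarith
    intro x y
    rw [abs_le]
    have h2 := h1 x y
    have h3 := h1 y x
    rw [abs_sub_comm] at h3
    constructor <;> linarith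
  have hL : LipschitzWith ⟨τ, hτ.le⟩ f := by
    refine LipschitzWith.of_dist_le_mul fun x y => ?_
    rw [Real.dist_eq, Real.dist_eq]
    exact hlipf x y
  have hdense := MeasureTheory.Measure.dense_of_ae (hL.ae_differentiableAt_real)
  obtain ⟨x₀, hx₀, hx₀'⟩ := hdense.inter_open_nonempty (Set.Ioo (0 : ℝ) (1 / 4)) isOpen_Ioo
    ⟨1 / 8, by constructor <;> norm_num⟩
  have hd : DifferentiableAt ℝ f x₀ := hx₀'
  set c : ℝ := deriv f x₀ with hc
  have hD : ∀ δ : ℝ, 0 < δ → ∃ r : ℝ, 0 < r ∧ ∀ h : ℝ, |h| ≤ r →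
      |f (x₀ + h) - f x₀ - c * h| ≤ δ * |h| := by
    intro δ hδ
    have h1 := (hasDerivAt_iff_isLittleO_nhds_zero.mp hd.hasDerivAt)
    have h2 := (Asymptotics.isLittleO_iff.mp h1) hδ
    obtain ⟨r, hr, hball⟩ := Metric.eventually_nhds_iff.mp h2
    refine ⟨r / 2, by positivity, fun h hh => ?_⟩
    have h3 := hball (y := h) (by rw [Real.dist_eq, sub_zero]; linarith)
    simp only [Real.norm_eq_abs, smul_eq_mul] at h3
    rw [mul_comm c h]
    exact h3
  -- convexity
  have hconv : ∀ x t : ℝ, 0 ≤ t → t ≤ 1 → f (x₀ + t * (x - x₀)) ≤ (1 - t) * f x₀ + t * f x := by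
    intro x t h0 h1
    have e : rot (TR true) + (x₀ + t * (x - x₀)) • TR true
        = (1 - t) • (rot (TR true) + x₀ • TR true) + t • (rot (TR true) + x • TR true) := by
      module
    have h2 := hN.add ((1 - t) • (rot (TR true) + x₀ • TR true))
      (t • (rot (TR true) + x • TR true))
    rw [← e, hN.smul, hN.smul, abs_of_nonneg h0, abs_of_nonneg (by linarith)] at h2
    exact h2
  have hsup : ∀ x : ℝ, f x₀ + c * (x - x₀) ≤ f x := by
    intro x
    refine le_of_forall_pos_le_add fun ε hε => ?_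
    obtain ⟨r, hr, hr'⟩ := hD (ε / (|x - x₀| + 1)) (by positivity)
    set t : ℝ := min 1 (r / (|x - x₀| + 1)) with ht
    have ht0 : 0 < t := lt_min one_pos (by positivity)
    have ht1 : t ≤ 1 := min_le_left _ _
    have h1 : |t * (x - x₀)| ≤ r := by
      rw [abs_mul, abs_of_pos ht0]
      have h2 : t ≤ r / (|x - x₀| + 1) := min_le_right _ _
      rw [le_div_iff₀ (by positivity)] at h2
      nlinarith [abs_nonneg (x - x₀)]
    have h2 := (abs_le.mp (hr' _ h1)).1
    have h3 := hconv x t ht0.le ht1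
    rw [abs_mul, abs_of_pos ht0] at h2
    have h4 : ε / (|x - x₀| + 1) * (t * |x - x₀|) ≤ t * ε := by
      rw [div_mul_eq_mul_div, div_le_iff₀ (by positivity)]
      nlinarith [abs_nonneg (x - x₀), mul_pos ht0 hε]
    have h5 : t * (f x₀ + c * (x - x₀)) ≤ t * (f x + ε) := by nlinarith
    exact le_of_mul_le_mul_left h5 ht0
  have hf0 : f 0 = τ := by
    rw [hf]; simp only [zero_smul, add_zero]; rw [hN.rot, N_TR hN]
  have hf1 : f 1 = 3 / 2 * τ := by
    have e : rot (TR true) + (1 : ℝ) • TR true = (3 / 2 : ℝ) • ((2 : ℝ), (2 : ℝ)) := by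
      unfold rot TR
      ext <;> norm_num
    rw [hf]; simp only
    rw [e, hN.smul, hN.w, abs_of_pos (by norm_num)]
  have hfm1 : f (-1) = 3 / 2 * τ := by
    have e : rot (TR true) + (-1 : ℝ) • TR true = (3 / 2 : ℝ) • rot ((2 : ℝ), (2 : ℝ)) := by
      unfold rot TR
      ext <;> norm_num
    rw [hf]; simp only
    rw [e, hN.smul, hN.rot, hN.w, abs_of_pos (by norm_num)]
  have hfx : τ - x₀ * τ ≤ f x₀ := by
    have h1 := (abs_le.mp (hlipf 0 x₀)).2
    rw [hf0, zero_sub, abs_neg, abs_of_pos hx₀.1] at h1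
    linarith
  have hx1 := hx₀.1
  have hx2 := hx₀.2
  have hcabs : |c| < τ := by
    rw [abs_lt]
    constructor
    · have h1 := hsup (-1)
      rw [hfm1] at h1
      nlinarith
    · have h1 := hsup 1
      rw [hf1] at h1
      nlinarith
  set l : ℝ × ℝ := (c / 3, (f x₀ - c * x₀) / 3) with hl
  have hlu : ip l (TR true) = c := by
    rw [hl]; unfold ip TR; simp only [if_true]; ring
  have hlr : ip l (rot (TR true)) = f x₀ - c * x₀ := by
    rw [hl]; unfold ip TR rot; simp only [if_true]; ring
  have hT0 : TR true ≠ 0 := by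
    unfold TR; simp
  refine ⟨rot (TR true) + x₀ • TR true, l, c, hcabs, ?_, hlu, ?_⟩
  · intro x
    obtain ⟨α, β, rfl⟩ := decomp hT0 x
    rw [ip_add, ip_smul, ip_smul, hlu, hlr]
    rcases lt_trichotomy β 0 with hβ | hβ | hβ
    · have e : β • rot (TR true) + α • TR true
          = β • (rot (TR true) + (α / β) • TR true) := by
        rw [smul_add, smul_smul, mul_div_cancel₀ _ hβ.ne]
      rw [e, hN.smul, abs_of_neg hβ]
      have e2 : α = β * (α / β) := (mul_div_cancel₀ _ hβ.ne).symm
      have h1 : τ * |x₀ - α / β| ≤ f x₀ + f (α / β) := by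
        have h2 := hN.sub_le (rot (TR true) + x₀ • TR true) (rot (TR true) + (α / β) • TR true)
        have e3 : rot (TR true) + x₀ • TR true - (rot (TR true) + (α / β) • TR true)
            = (x₀ - α / β) • TR true := by module
        rw [e3, hN.smul, N_TR hN] at h2
        rw [hf]; simp only; linarith
      have h3 : c * (x₀ - α / β) ≤ τ * |x₀ - α / β| := by
        have h4 : c * (x₀ - α / β) ≤ |c| * |x₀ - α / β| := by
          rw [← abs_mul]; exact le_abs_self _
        nlinarith [abs_nonneg (x₀ - α / β)]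
      have h5 : (-β) * (c * (x₀ - α / β) - f x₀) ≤ (-β) * f (α / β) :=
        mul_le_mul_of_nonneg_left (by linarith) (by linarith)
      have h6 : α * c = β * (α / β) * c := by rw [← e2]
      rw [h6]
      have h7 : N (rot (TR true) + (α / β) • TR true) = f (α / β) := rfl
      rw [h7]
      linarith
    · subst hβ
      rw [zero_mul, zero_add, zero_smul, zero_add, hN.smul, N_TR hN]
      have h2 : α * c ≤ |α| * |c| := by rw [← abs_mul]; exact le_abs_self _
      nlinarith [abs_nonneg α]
    · have e : β • rot (TR true) + α • TR true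
          = β • (rot (TR true) + (α / β) • TR true) := by
        rw [smul_add, smul_smul, mul_div_cancel₀ _ hβ.ne']
      rw [e, hN.smul, abs_of_pos hβ]
      have e2 : α = β * (α / β) := (mul_div_cancel₀ _ hβ.ne').symm
      have h1 := hsup (α / β)
      have h5 : β * (f x₀ + c * (α / β - x₀)) ≤ β * f (α / β) :=
        mul_le_mul_of_nonneg_left h1 hβ.le
      have h6 : α * c = β * (α / β) * c := by rw [← e2]
      rw [h6]
      have h7 : N (rot (TR true) + (α / β) • TR true) = f (α / β) := rfl
      rw [h7]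
      linarith
  · intro δ hδ
    obtain ⟨r, hr, hr'⟩ := hD δ hδ
    refine ⟨r, hr, fun h hh => ?_⟩
    have h1 := (abs_le.mp (hr' h hh)).2
    have e : rot (TR true) + x₀ • TR true + h • TR true
        = rot (TR true) + (x₀ + h) • TR true := by module
    have h2 : N (rot (TR true) + (x₀ + h) • TR true) = f (x₀ + h) := rfl
    rw [e, h2, ip_add, ip_smul, hlu, hlr]
    linarith

end Pool.Agent.AGeo
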