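import Pool.Agent.AGeo.Count

/-!
The walk of momenta: from every state long walks through different states.
-/

set_option autoImplicit false

namespace Pool.Agent.AGeo

/-- step of the momentum walk -/
def Step (N : ℝ × ℝ → ℝ) (τ : ℝ) (x y : ℝ × Bool) : Prop :=
  |x.1| < τ ∧ |y.1| < τ ∧ ∃ l, Star N l ∧ ∃ a : ℕ, ip l (TR (!x.2)) = x.1 ∧
    ip l (rot^[a] (TR y.2)) = y.1

lemma ip_iter (a : ℕ) (m x : ℝ × ℝ) : ip (rot^[a] m) (rot^[a] x) = ip m x := by
  induction a generalizing m x with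
  | zero => rfl
  | succ a ih => rw [Function.iterate_succ_apply', Function.iterate_succ_apply',
      ip_rot_rot, ih]

lemma star_iter {N : ℝ × ℝ → ℝ} {τ : ℝ} (hN : Nrm N τ) (a : ℕ) (m : ℝ × ℝ) (hm : Star N m) :
    Star N (rot^[a] m) := by
  induction a with
  | zero => exact hm
  | succ a ih => rw [Function.iterate_succ_apply']; exact star_rot hN ih

lemma rot_iter_mul (b : ℕ) (x : ℝ × ℝ) : rot^[4 * b] x = x := by
  induction b with
  | zero => rfl
  | succ b ih => rw [Nat.mul_succ, Function.iterate_add_apply, rot_iter4, ih]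

lemma rot_iter_mod (a : ℕ) (x : ℝ × ℝ) : rot^[a % 4] x = rot^[a] x := by
  conv_rhs => rw [← Nat.div_add_mod a 4, Function.iterate_add_apply, rot_iter_mul]

lemma ip_back (a : ℕ) (m x : ℝ × ℝ) : ip m (rot^[a] x) = ip (rot^[3 * a] m) x := by
  have h1 := ip_iter (3 * a) m (rot^[a] x)
  rw [← Function.iterate_add_apply, show 3 * a + a = 4 * a by ring, rot_iter_mul] at h1
  exact h1.symm

lemma Step.rev {N : ℝ × ℝ → ℝ} {τ : ℝ} (hN : Nrm N τ) {x y : ℝ × Bool} (h : Step N τ x y) :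
    Step N τ (y.1, !y.2) (x.1, !x.2) := by
  obtain ⟨h1, h2, l, hl, a, ha, hb⟩ := h
  refine ⟨h2, h1, rot^[3 * a] l, star_iter hN _ _ hl, 3 * a, ?_, ?_⟩
  · simp only [Bool.not_not]
    rw [← ip_back, hb]
  · simp only
    rw [ip_iter, ha]

lemma Step.turn {N : ℝ × ℝ → ℝ} {τ : ℝ} (hN : Nrm N τ) (x : ℝ × Bool) (hx : |x.1| < τ) :
    Step N τ x (x.1, !x.2) := by
  obtain ⟨s, hs2, hs⟩ := two_star hN (N_TR hN (!x.2)) hx
  have hs0 : s.Nonempty := by
    rw [← Finset.card_pos, hs2]; norm_num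
  obtain ⟨m, hm⟩ := hs0
  obtain ⟨h1, h2⟩ := (hs m).mp hm
  exact ⟨hx, hx, m, h1, 0, h2, h2⟩

lemma reach_infinite {N : ℝ × ℝ → ℝ} {τ : ℝ} (hN : Nrm N τ) (s : ℝ × Bool) (hs : |s.1| < τ) :
    {y | Relation.ReflTransGen (Step N τ) s y}.Infinite := by
  classical
  intro hfin
  have hR : ∀ y, Relation.ReflTransGen (Step N τ) s y → |y.1| < τ := by
    intro y hy
    rcases Relation.ReflTransGen.cases_tail hy with h | ⟨z, -, hz⟩
    · rw [h]; exact hs
    · exact hz.2.1
  refine not_closed hN (hfin.toFinset.image Prod.fst) ⟨s.1, ?_⟩ ?_ ?_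
  · rw [Finset.mem_image]
    exact ⟨s, hfin.mem_toFinset.mpr Relation.ReflTransGen.refl, rfl⟩
  · intro c hc
    rw [Finset.mem_image] at hc
    obtain ⟨y, hy, rfl⟩ := hc
    exact hR y (hfin.mem_toFinset.mp hy)
  · intro l hl e hC e' a hlt
    rw [Finset.mem_image] at hC ⊢
    obtain ⟨y, hy, hyl⟩ := hC
    have hy' : Relation.ReflTransGen (Step N τ) s y := hfin.mem_toFinset.mp hy
    have h1 : Relation.ReflTransGen (Step N τ) s (y.1, !e) := by
      by_cases h : y.2 = !e
      · rw [← h]; exact hy'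
      · have h2 : (!y.2) = !e := by
          revert h
          cases y.2 <;> cases e <;> simp
        have h3 := Step.turn hN y (hR y hy')
        rw [h2] at h3
        exact hy'.tail h3
    refine ⟨(ip l (rot^[a] (TR e')), e'), ?_, rfl⟩
    refine hfin.mem_toFinset.mpr (h1.tail ⟨hR y hy', hlt, l, hl, a, ?_, rfl⟩)
    simp only [Bool.not_not]
    exact hyl.symm

lemma succ_finite {N : ℝ × ℝ → ℝ} {τ : ℝ} (hN : Nrm N τ) (x : ℝ × Bool) :
    {y | Step N τ x y}.Finite := by
  classical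
  by_cases hx : |x.1| < τ
  · obtain ⟨s, hs2, hs⟩ := two_star hN (N_TR hN (!x.2)) hx
    refine ((s ×ˢ (Finset.range 4) ×ˢ (Finset.univ : Finset Bool)).image
      (fun q => (ip q.1 (rot^[q.2.1] (TR q.2.2)), q.2.2))).finite_toSet.subset ?_
    rintro y ⟨-, -, l, hl, a, ha, hb⟩
    rw [Finset.mem_coe, Finset.mem_image]
    refine ⟨(l, a % 4, y.2), ?_, ?_⟩
    · rw [Finset.mem_product, Finset.mem_product]
      exact ⟨(hs l).mpr ⟨hl, ha⟩, Finset.mem_range.mpr (Nat.mod_lt _ (by norm_num)),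
        Finset.mem_univ _⟩
    · simp only
      rw [rot_iter_mod, hb]
  · refine (Set.finite_empty).subset ?_
    intro y hy
    exact absurd hy.1 hx

/-- states reachable in at most `k` steps -/
def Lev (N : ℝ × ℝ → ℝ) (τ : ℝ) (s : ℝ × Bool) : ℕ → Set (ℝ × Bool)
  | 0 => {s}
  | k + 1 => Lev N τ s k ∪ {y | ∃ x ∈ Lev N τ s k, Step N τ x y}

lemma lev_finite {N : ℝ × ℝ → ℝ} {τ : ℝ} (hN : Nrm N τ) (s : ℝ × Bool) (k : ℕ) :
    (Lev N τ s k).Finite := by
  induction k with
  | zero => exact Set.finite_singleton s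
  | succ k ih =>
    refine ih.union ?_
    have h : {y | ∃ x ∈ Lev N τ s k, Step N τ x y}
        = ⋃ x ∈ Lev N τ s k, {y | Step N τ x y} := by
      ext y; simp
    rw [h]
    exact ih.biUnion fun x _ => succ_finite hN x

lemma lev_mono {N : ℝ × ℝ → ℝ} {τ : ℝ} (s : ℝ × Bool) {j k : ℕ} (h : j ≤ k) :
    Lev N τ s j ⊆ Lev N τ s k := by
  induction h with
  | refl => exact subset_rfl
  | step _ ih => exact ih.trans Set.subset_union_left

lemma lev_new {N : ℝ × ℝ → ℝ} {τ : ℝ} (hN : Nrm N τ) (s : ℝ × Bool) (hs : |s.1| < τ) (n : ℕ) :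
    ∃ y ∈ Lev N τ s (n + 1), y ∉ Lev N τ s n := by
  by_contra h
  push Not at h
  refine reach_infinite hN s hs ((lev_finite hN s n).subset ?_)
  intro y hy
  simp only [Set.mem_ofPred_eq] at hy
  induction hy with
  | refl => exact lev_mono s (Nat.zero_le n) rfl
  | tail _ hbc ih => exact h _ (Or.inr ⟨_, ih, hbc⟩)

lemma lev_path {N : ℝ × ℝ → ℝ} {τ : ℝ} (s : ℝ × Bool) (n : ℕ) :
    ∀ y, y ∈ Lev N τ s n → (∀ j < n, y ∉ Lev N τ s j) →
    ∃ x : ℕ → ℝ × Bool, x 0 = s ∧ x n = y ∧ (∀ k < n, Step N τ (x k) (x (k + 1))) ∧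
      ∀ k ≤ n, x k ∈ Lev N τ s k ∧ ∀ j < k, x k ∉ Lev N τ s j := by
  induction n with
  | zero =>
    intro y hy _
    refine ⟨fun _ => s, rfl, ?_, ?_, ?_⟩
    · exact (Set.mem_singleton_iff.mp hy).symm
    · intro k hk; omega
    · intro k hk
      have : k = 0 := by omega
      subst this
      exact ⟨rfl, fun j hj => by omega⟩
  | succ n ih =>
    intro y hy hy'
    rcases hy with hy | ⟨z, hz, hzy⟩
    · exact absurd hy (hy' n (Nat.lt_succ_self n))
    · have hz' : ∀ j < n, z ∉ Lev N τ s j := by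
        intro j hj hzj
        exact hy' (j + 1) (by omega) (Or.inr ⟨z, hzj, hzy⟩)
      obtain ⟨x, hx0, hxn, hxs, hxl⟩ := ih z hz hz'
      refine ⟨fun k => if k ≤ n then x k else y, ?_, ?_, ?_, ?_⟩
      · simp [hx0]
      · simp
      · intro k hk
        by_cases h : k + 1 ≤ n
        · simp only [h, show k ≤ n by omega, if_true]
          exact hxs k (by omega)
        · have hkn : k = n := by omega
          subst hkn
          simp only [le_refl, if_true, h, if_false]
          rw [hxn]; exact hzy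
      · intro k hk
        by_cases h : k ≤ n
        · simp only [h, if_true]
          exact hxl k h
        · have hkn : k = n + 1 := by omega
          subst hkn
          simp only [h, if_false]
          exact ⟨Or.inr ⟨z, hz, hzy⟩, hy'⟩

lemma path_extend {α : Type} {r : α → α → Prop} (x : ℕ → α) (k : ℕ)
    (hx : ∀ i < k, r (x i) (x (i + 1))) {z : α} (h : Relation.ReflTransGen r (x k) z) :
    ∃ (m : ℕ) (x' : ℕ → α), k ≤ m ∧ (∀ i ≤ k, x' i = x i) ∧ x' m = z ∧
      ∀ i < m, r (x' i) (x' (i + 1)) := by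
  induction h with
  | refl => exact ⟨k, x, le_rfl, fun _ _ => rfl, rfl, hx⟩
  | @tail b c _ hbc ih =>
    obtain ⟨m, x', hkm, hag, hm, hst⟩ := ih
    refine ⟨m + 1, fun i => if i ≤ m then x' i else c, by omega, ?_, ?_, ?_⟩
    · intro i hi
      simp only [show i ≤ m by omega, if_true]
      exact hag i hi
    · simp
    · intro i hi
      by_cases h : i + 1 ≤ m
      · simp only [h, show i ≤ m by omega, if_true]
        exact hst i (by omega)
      · have hin : i = m := by omega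
        subst hin
        simp only [le_refl, if_true, h, if_false]
        rw [hm]; exact hbc

theorem exists_walk {N : ℝ × ℝ → ℝ} {τ : ℝ} (hN : Nrm N τ) (c₁ : ℝ) (hc : |c₁| < τ) (n : ℕ) :
    ∃ (m : ℕ) (x : ℕ → ℝ × Bool), n ≤ m ∧ x 0 = (c₁, true) ∧ x m = (c₁, false) ∧
      (∀ k < m, Step N τ (x k) (x (k + 1))) ∧ ∀ i j, i < j → j ≤ n → x i ≠ x j := by
  obtain ⟨y, hy, hy'⟩ : ∃ y ∈ Lev N τ (c₁, true) n, ∀ j < n, y ∉ Lev N τ (c₁, true) j := by
    cases n with
    | zero => exact ⟨(c₁, true), rfl, fun j hj => by omega⟩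
    | succ n =>
      obtain ⟨y, h1, h2⟩ := lev_new hN (c₁, true) hc n
      exact ⟨y, h1, fun j hj hyj => h2 (lev_mono _ (by omega) hyj)⟩
  obtain ⟨x, hx0, hxn, hxs, hxl⟩ := lev_path (c₁, true) n y hy hy'
  have hfwd : ∀ k ≤ n, Relation.ReflTransGen (Step N τ) ((x k).1, !(x k).2) (c₁, false) := by
    intro k
    induction k with
    | zero =>
      intro _
      rw [hx0]
      exact Relation.ReflTransGen.refl
    | succ k ih =>
      intro hk
      exact Relation.ReflTransGen.head ((hxs k (by omega)).rev hN) (ih (by omega))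
  have hlt : |(x n).1| < τ := by
    rcases Nat.eq_zero_or_pos n with h | h
    · subst h; rw [hx0]; exact hc
    · have h1 := hxs (n - 1) (by omega)
      rw [show n - 1 + 1 = n by omega] at h1
      exact h1.2.1
  have h := Relation.ReflTransGen.head (Step.turn hN (x n) hlt) (hfwd n le_rfl)
  obtain ⟨m, x', hnm, hag, hm, hst⟩ := path_extend x n hxs h
  refine ⟨m, x', hnm, ?_, hm, hst, ?_⟩
  · rw [hag 0 (Nat.zero_le n), hx0]
  · intro i j hij hj heq
    rw [hag i (by omega), hag j hj] at heq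
    have h1 := (hxl i (by omega)).1
    have h2 := (hxl j hj).2 i hij
    rw [heq] at h1
    exact h2 h1

end Pool.Agent.AGeo
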